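import Mathlib
import Pool.Agent.N991.MK.Tan1

/-!
# The tangent vector after one convolution square: the limit `t → 0`
-/

open MeasureTheory Filter Metric Asymptotics Matrix
open scoped Matrix.Norms.Frobenius Topology ContDiff
open Pool.Agent.H906R3.YM Pool.Agent.W793.YM Pool.Agent.TH618.YM Pool.Agent.N984.TW
open Pool.Agent.N991.MK Pool.Agent.N988.MK

namespace Pool.Agent.N985.T3

set_option linter.unusedSectionVars false

noncomputable section

/-! ### elementary limits -/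

lemma quot_lim {A B C A1 B1 C1 : ℂ} (hA1 : A1 ≠ 0) {s : ℕ → ℝ} (hs : Tendsto s atTop (𝓝 0))
    (hs0 : ∀ j, s j ≠ 0) (hne : ∀ j, A1 + s j * B1 + (s j) ^ 2 * C1 ≠ 0) :
    Tendsto (fun j => ((A + s j * B + (s j) ^ 2 * C) / (A1 + s j * B1 + (s j) ^ 2 * C1) -
      A / A1) / s j) atTop (𝓝 (B / A1 - A * B1 / A1 ^ 2)) := by
  have hsc : Tendsto (fun j => (s j : ℂ)) atTop (𝓝 0) := by
    have := (Complex.continuous_ofReal.tendsto 0).comp hs
    rw [Complex.ofReal_zero] at this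
    exact this
  have e : (fun j => ((A + s j * B + (s j) ^ 2 * C) / (A1 + s j * B1 + (s j) ^ 2 * C1) -
      A / A1) / s j) = fun j => ((B + s j * C) * A1 - A * (B1 + s j * C1)) /
        ((A1 + s j * B1 + (s j) ^ 2 * C1) * A1) := by
    funext j
    have h1 := hne j
    have h2 : (s j : ℂ) ≠ 0 := Complex.ofReal_ne_zero.2 (hs0 j)
    rw [div_sub_div _ _ h1 hA1, div_div, div_eq_div_iff (mul_ne_zero (mul_ne_zero h1 hA1) h2)
      (mul_ne_zero h1 hA1)]
    ring
  rw [e]
  have h1 : Tendsto (fun j => (B + s j * C) * A1 - A * (B1 + s j * C1)) atTop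
      (𝓝 ((B + 0 * C) * A1 - A * (B1 + 0 * C1))) :=
    ((tendsto_const_nhds.add (hsc.mul_const C)).mul_const A1).sub
      ((tendsto_const_nhds.add (hsc.mul_const C1)).const_mul A)
  have h2 : Tendsto (fun j => (A1 + s j * B1 + (s j : ℂ) ^ 2 * C1) * A1) atTop
      (𝓝 ((A1 + 0 * B1 + 0 ^ 2 * C1) * A1)) :=
    ((tendsto_const_nhds.add (hsc.mul_const B1)).add ((hsc.pow 2).mul_const C1)).mul_const A1
  have h3 := h1.div h2 (by
    have : (A1 + 0 * B1 + 0 ^ 2 * C1) * A1 = A1 * A1 := by ring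
    rw [this]
    exact mul_ne_zero hA1 hA1)
  have e2 : ((B + 0 * C) * A1 - A * (B1 + 0 * C1)) / ((A1 + 0 * B1 + 0 ^ 2 * C1) * A1) =
      B / A1 - A * B1 / A1 ^ 2 := by
    have e3 : A1 + 0 * B1 + 0 ^ 2 * C1 = A1 := by ring
    rw [e3, zero_mul, zero_mul, add_zero, add_zero]
    field_simp
  rwa [e2] at h3

lemma log_lim {D : ℕ → ℂ} {s : ℕ → ℝ} {ψ : ℂ} {C : ℝ} (hs : Tendsto s atTop (𝓝 0))
    (hs0 : ∀ j, 0 < s j) (hD : ∀ j, ‖D j‖ ≤ C * s j)
    (h : Tendsto (fun j => (Complex.exp (D j) - 1) / s j) atTop (𝓝 ψ)) :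
    Tendsto (fun j => D j / s j) atTop (𝓝 ψ) := by
  have h1 : ∀ᶠ j in atTop, C * s j ≤ 1 := by
    have h2 : Tendsto (fun j => C * s j) atTop (𝓝 (C * 0)) := hs.const_mul C
    rw [mul_zero] at h2
    exact (h2.eventually (gt_mem_nhds one_pos)).mono fun j hj => le_of_lt hj
  have h2 : Tendsto (fun j => (Complex.exp (D j) - 1) / s j - D j / s j) atTop (𝓝 0) := by
    rw [tendsto_zero_iff_norm_tendsto_zero]
    have h3 : Tendsto (fun j => C ^ 2 * s j) atTop (𝓝 0) := by
      have := hs.const_mul (C ^ 2)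
      rwa [mul_zero] at this
    refine squeeze_zero' (Eventually.of_forall fun j => norm_nonneg _) ?_ h3
    filter_upwards [h1] with j hj
    have h4 := hs0 j
    have h5 : (s j : ℂ) ≠ 0 := Complex.ofReal_ne_zero.2 h4.ne'
    rw [← sub_div, norm_div, Complex.norm_real, Real.norm_eq_abs, abs_of_pos h4,
      div_le_iff₀ h4]
    have h6 := Complex.norm_exp_sub_one_sub_id_le ((hD j).trans hj)
    refine h6.trans ?_
    have h7 := pow_le_pow_left₀ (norm_nonneg _) (hD j) 2
    calc ‖D j‖ ^ 2 ≤ (C * s j) ^ 2 := h7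
      _ = _ := by ring
  have h3 := h.sub h2
  rw [sub_zero] at h3
  refine h3.congr fun j => ?_
  ring

/-! ### bilinearity of the convolution -/

variable {N n : ℕ} {G : Subgroup (UN N)} {B : Frame G n}
variable [CompactSpace G] [MeasurableSpace G] [BorelSpace G]
variable {μ : Measure G} [IsProbabilityMeasure μ] [μ.IsMulLeftInvariant]
    [μ.IsMulRightInvariant] [μ.IsInvInvariant]

variable (μ) in
/-- the derivative of the convolution square -/
def dC (F H : (Mat N)ˣ → ℂ) (u : (Mat N)ˣ) : ℂ := convC μ H F u + convC μ F H u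

variable (μ) in
/-- the normalised convolution square -/
def nC2 (F : (Mat N)ˣ → ℂ) (u : (Mat N)ˣ) : ℂ := convC μ F F u / convC μ F F 1

variable (μ) in
/-- the derivative of the normalised convolution square -/
def dN (F H : (Mat N)ˣ → ℂ) (u : (Mat N)ˣ) : ℂ :=
  dC μ F H u / convC μ F F 1 - convC μ F F u * dC μ F H 1 / convC μ F F 1 ^ 2

variable (μ) in
/-- the derivative of the convolution square, on the group -/
def dc (f g : G → ℝ) (x : G) : ℝ := conv μ g f x + conv μ f g x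

variable (μ) in
/-- the normalised convolution square, on the group -/
def n2 (f : G → ℝ) (x : G) : ℝ := conv μ f f x / conv μ f f 1

variable (μ) in
/-- the derivative of the normalised convolution square, on the group -/
def dn (f g : G → ℝ) (x : G) : ℝ :=
  dc μ f g x / conv μ f f 1 - conv μ f f x * dc μ f g 1 / conv μ f f 1 ^ 2

lemma intgC {D D' : (Mat N)ˣ → ℂ} (hD : Hol D) (hD' : Hol D') (u : (Mat N)ˣ) :
    Integrable (fun z : G => D (uG z) * D' ((uG z)⁻¹ * u)) μ := by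
  refine intg ?_
  refine (hD.contG).mul (hD'.cont2 (u := fun z : G => (uG z)⁻¹ * u) ?_ ?_)
  · exact mt_inv_cont.mul continuous_const
  · have : (fun z : G => ((((uG z)⁻¹ * u)⁻¹ : (Mat N)ˣ) : Mat N)) =
        fun z : G => ((u⁻¹ : (Mat N)ˣ) : Mat N) * mt z := by
      funext z; rw [_root_.mul_inv_rev, inv_inv]; rfl
    rw [this]
    exact continuous_const.mul mt_cont

lemma convC_pert {F H : (Mat N)ˣ → ℂ} (hF : Hol F) (hH : Hol H) (t : ℂ) (u : (Mat N)ˣ) :
    convC μ (fun u => F u + t * H u) (fun u => F u + t * H u) u =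
      convC μ F F u + t * dC μ F H u + t ^ 2 * convC μ H H u := by
  have i1 := intgC (μ := μ) hF hF u
  have i2 := intgC (μ := μ) hH hF u
  have i3 := intgC (μ := μ) hF hH u
  have i4 := intgC (μ := μ) hH hH u
  have i5 : Integrable (fun z : G => t * (H (uG z) * F ((uG z)⁻¹ * u) +
      F (uG z) * H ((uG z)⁻¹ * u))) μ := (i2.add i3).const_mul t
  have i6 : Integrable (fun z : G => t ^ 2 * (H (uG z) * H ((uG z)⁻¹ * u))) μ :=
    i4.const_mul (t ^ 2)
  have i7 : Integrable (fun z : G => F (uG z) * F ((uG z)⁻¹ * u) +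
      t * (H (uG z) * F ((uG z)⁻¹ * u) + F (uG z) * H ((uG z)⁻¹ * u))) μ := i1.add i5
  unfold dC convC
  rw [← integral_add i2 i3, ← integral_const_mul, ← integral_const_mul,
    ← integral_add i1 i5, ← integral_add i7 i6]
  refine integral_congr_ae (Eventually.of_forall fun z => ?_)
  beta_reduce
  ring

lemma uG_one : (uG (1 : G) : (Mat N)ˣ) = 1 := map_one _

lemma cf_smul' {f : G → ℝ} {F : (Mat N)ˣ → ℂ} (h : CF f F) (c : ℝ) :
    CF (fun x => c * f x) (fun u => c * F u) where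
  hol := by
    obtain ⟨Φ, a1, a2⟩ := h.hol
    exact ⟨fun p => (c : ℂ) * Φ p, contDiff_const.mul a1, fun u => by simp only [a2]⟩
  cls g' u := by rw [h.cls]
  sym u := by rw [h.sym]
  res g' := by rw [h.res]; push_cast; rfl

lemma cf_add' {f g : G → ℝ} {F H : (Mat N)ˣ → ℂ} (h1 : CF f F) (h2 : CF g H) :
    CF (fun x => f x + g x) (fun u => F u + H u) where
  hol := by
    obtain ⟨Φ, a1, a2⟩ := h1.hol
    obtain ⟨Ψ, b1, b2⟩ := h2.hol
    exact ⟨fun p => Φ p + Ψ p, a1.add b1, fun u => by simp only [a2, b2]⟩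
  cls g' u := by rw [h1.cls, h2.cls]
  sym u := by rw [h1.sym, h2.sym]
  res g' := by rw [h1.res, h2.res]; push_cast; rfl

lemma cf_dc {f g : G → ℝ} {F H : (Mat N)ˣ → ℂ} (h1 : CF f F) (h2 : CF g H) :
    CF (dc μ f g) (dC μ F H) := cf_add' (h2.convC h1) (h1.convC h2)

lemma cf_at_one {f : G → ℝ} {F : (Mat N)ˣ → ℂ} (h : CF f F) : F 1 = (f 1 : ℂ) := by
  rw [← uG_one (G := G), h.res]

lemma cf_n2 {f : G → ℝ} {F : (Mat N)ˣ → ℂ} (h : CF f F) : CF (n2 μ f) (nC2 μ F) := by
  have h1 := h.convC (μ := μ) h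
  have h2 := cf_smul' h1 (conv μ f f 1)⁻¹
  have e1 : n2 μ f = fun x => (conv μ f f 1)⁻¹ * conv μ f f x := by
    funext x; unfold n2; rw [div_eq_inv_mul]
  have e2 : nC2 μ F = fun u => (((conv μ f f 1)⁻¹ : ℝ) : ℂ) * convC μ F F u := by
    funext u; unfold nC2; rw [cf_at_one h1, div_eq_inv_mul]; push_cast; rfl
  rw [e1, e2]
  exact h2

lemma cf_dn {f g : G → ℝ} {F H : (Mat N)ˣ → ℂ} (h1 : CF f F) (h2 : CF g H) :
    CF (dn μ f g) (dN μ F H) := by
  have a1 := h1.convC (μ := μ) h1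
  have a2 := cf_dc (μ := μ) h1 h2
  have b1 := cf_smul' a2 (conv μ f f 1)⁻¹
  have b2 := cf_smul' a1 (-(dc μ f g 1) / conv μ f f 1 ^ 2)
  have b3 := cf_add' b1 b2
  have e1 : dn μ f g = fun x => (conv μ f f 1)⁻¹ * dc μ f g x +
      (-(dc μ f g 1) / conv μ f f 1 ^ 2) * conv μ f f x := by
    funext x; unfold dn; ring
  have e2 : dN μ F H = fun u => (((conv μ f f 1)⁻¹ : ℝ) : ℂ) * dC μ F H u +
      ((-(dc μ f g 1) / conv μ f f 1 ^ 2 : ℝ) : ℂ) * convC μ F F u := by
    funext u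
    unfold dN
    rw [cf_at_one a1, cf_at_one a2]
    push_cast
    ring
  rw [e1, e2]
  exact b3

lemma dN_one {F H : (Mat N)ˣ → ℂ} (h : convC μ F F 1 ≠ 0) : dN μ F H 1 = 0 := by
  unfold dN
  field_simp
  ring

lemma dC_smul {F H : (Mat N)ˣ → ℂ} (c : ℂ) (u : (Mat N)ˣ) :
    dC μ F (fun u => c * H u) u = c * dC μ F H u := by
  unfold dC convC
  have e1 : (fun z : G => c * H (uG z) * F ((uG z)⁻¹ * u)) =
      fun z : G => c * (H (uG z) * F ((uG z)⁻¹ * u)) := by funext z; ring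
  have e2 : (fun z : G => F (uG z) * (c * H ((uG z)⁻¹ * u))) =
      fun z : G => c * (F (uG z) * H ((uG z)⁻¹ * u)) := by funext z; ring
  rw [e1, e2, integral_const_mul, integral_const_mul]
  ring

lemma dN_smul {F H : (Mat N)ˣ → ℂ} (c : ℂ) :
    dN μ F (fun u => c * H u) = fun u => c * dN μ F H u := by
  funext u
  unfold dN
  rw [dC_smul, dC_smul]
  ring

/-- tangent vectors can be multiplied by a number -/
lemma Tg_smul {r k a lam L : ℝ} {F H : (Mat N)ˣ → ℂ} {η : (Fin n → ℂ) → ℂ}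
    (h : Tg B r k a lam L F H η) (c : ℝ) :
    Tg B r k (c * a) (|c| * lam) (|c| * L) F (fun u => c * H u) (fun x => c * η x) where
  lam0 := mul_nonneg (abs_nonneg c) h.lam0
  L0 := mul_nonneg (abs_nonneg c) h.L0
  near x hx := by
    rw [h.near x hx]
    push_cast
    ring
  md x hx := (h.md x hx).const_mul _
  even x hx := by rw [h.even x hx]
  bd x hx := by
    rw [norm_mul, Complex.norm_real, Real.norm_eq_abs, mul_assoc]
    exact mul_le_mul_of_nonneg_left (h.bd x hx) (abs_nonneg c)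
  far v y hv hc := by
    rw [norm_mul, Complex.norm_real, Real.norm_eq_abs, mul_assoc]
    exact mul_le_mul_of_nonneg_left (h.far v y hv hc) (abs_nonneg c)

end

end Pool.Agent.N985.T3
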