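import Mathlib
import Pool.Agent.N985.T3.Lim

/-!
# The tangent vector after one convolution square: the limit `t → 0`, abstract part
-/

open MeasureTheory Filter Metric Asymptotics Matrix
open scoped Matrix.Norms.Frobenius Topology ContDiff
open Pool.Agent.H906R3.YM Pool.Agent.W793.YM Pool.Agent.TH618.YM Pool.Agent.N984.TW
open Pool.Agent.N991.MK Pool.Agent.N988.MK

namespace Pool.Agent.N985.T3

set_option linter.unusedSectionVars false

noncomputable section

variable {N n : ℕ} {G : Subgroup (UN N)} {B : Frame G n}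
variable [CompactSpace G] [MeasurableSpace G] [BorelSpace G]
variable {μ : Measure G} [IsProbabilityMeasure μ] [μ.IsMulLeftInvariant]
    [μ.IsMulRightInvariant] [μ.IsInvInvariant]

variable (B μ) in
/-- what is known about the convolution squares of the perturbed states -/
structure PT (r k a l k' K t : ℝ) (F H : (Mat N)ˣ → ℂ) (m' : (Fin n → ℂ) → ℂ) (κ : ℝ)
    (mt : (Fin n → ℂ) → ℂ) : Prop where
  ne : convC μ (fun u => F u + t * H u) (fun u => F u + t * H u) 1 ≠ 0
  near : ∀ x, nC x < r → convC μ (fun u => F u + t * H u) (fun u => F u + t * H u) (uE B x) =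
    convC μ (fun u => F u + t * H u) (fun u => F u + t * H u) 1 *
      Complex.exp (-(κ / 2) * qC x - mt x)
  dk : |κ - k' - t * a / 2| ≤ t * (K * (|a| + l + t) / k)
  dm : ∀ x, nC x < r → ‖mt x - m' x‖ ≤
    t * ((l + t) / 8 + K * (|a| + l + t) / k) * nC x ^ 4
  far : ∀ (v : Fin n → ℝ) (y : G), nE v ≤ 0.51 * r → (0.95 * r) ^ 2 < nE v ^ 2 + nN y ^ 2 →
    ‖convC μ (fun u => F u + t * H u) (fun u => F u + t * H u)
        (uE B (Complex.I • rl v) * uG y) /
        convC μ (fun u => F u + t * H u) (fun u => F u + t * H u) 1 -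
      convC μ F F (uE B (Complex.I • rl v) * uG y) / convC μ F F 1‖ ≤
      t * (K * (|a| + l + t) / k) *
        Real.exp (min k' κ / 2 * (1.01 * nE v ^ 2 - 0.99 * min (nN y) r ^ 2))

/-- **the limit of the divided differences is a tangent vector** -/
theorem lim_aux {r k a l k' M' K t₀ : ℝ} {F H : (Mat N)ˣ → ℂ} {f g : G → ℝ}
    {m' : (Fin n → ℂ) → ℂ} (hF : CF f F) (hH : CF g H) (hk : 0 < k)
    (hl : 0 ≤ l) (hK : 0 ≤ K) (ht₀ : 0 < t₀) (hs : St B r k' M' (convC μ F F) m')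
    (hW : convC μ F F 1 ≠ 0)
    (hP : ∀ t : ℝ, 0 < t → t ≤ t₀ → ∃ κ mt, PT B μ r k a l k' K t F H m' κ mt) :
    ∃ a₁ η₁, Tg B r k' a₁ (l / 8 + K * (|a| + l) / k) (K * (|a| + l) / k) (nC2 μ F) (dN μ F H) η₁ ∧
      |a₁ - a / 2| ≤ K * (|a| + l) / k := by
  obtain ⟨t, ht⟩ : ∃ t : ℕ → ℝ, t = fun j : ℕ => t₀ * (1 / ((j : ℝ) + 1)) := ⟨_, rfl⟩
  have t0 : ∀ j, 0 < t j := by intro j; rw [ht]; positivity
  have t1 : ∀ j, t j ≤ t₀ := by
    intro j
    rw [ht]
    beta_reduce
    refine mul_le_of_le_one_right ht₀.le ?_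
    rw [div_le_one (by positivity)]
    have := Nat.cast_nonneg (α := ℝ) j
    linarith
  have tl : Tendsto t atTop (𝓝 0) := by
    rw [ht]
    have := (tendsto_one_div_add_atTop_nhds_zero_nat (𝕜 := ℝ)).const_mul t₀
    rwa [mul_zero] at this
  choose κ mt hPT using fun j => hP (t j) (t0 j) (t1 j)
  have ha0 := abs_nonneg a
  obtain ⟨c, hc⟩ : ∃ c : ℕ → ℝ, c = fun j => (κ j - k') / t j := ⟨_, rfl⟩
  have hκ : ∀ j, κ j = k' + c j * t j := by
    intro j
    rw [hc]
    have := (t0 j).ne'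
    field_simp
    ring
  have hc1 : ∀ j, |c j - a / 2| ≤ K * (|a| + l + t j) / k := by
    intro j
    have h1 := (hPT j).dk
    have h2 := t0 j
    have e : κ j - k' - t j * a / 2 = t j * (c j - a / 2) := by
      rw [hκ j]
      ring
    rw [e, abs_mul, abs_of_pos h2] at h1
    exact le_of_mul_le_mul_left h1 h2
  obtain ⟨R, hR⟩ : ∃ R, R = |a| / 2 + K * (|a| + l + t₀) / k := ⟨_, rfl⟩
  have hR0 : 0 ≤ R := by rw [hR]; positivity
  have hc2 : ∀ j, |c j| ≤ R := by
    intro j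
    have h1 := hc1 j
    have h2 : K * (|a| + l + t j) / k ≤ K * (|a| + l + t₀) / k := by
      have := t1 j
      gcongr
    have h3 : |c j| ≤ |c j - a / 2| + |a / 2| := by
      have := abs_add_le (c j - a / 2) (a / 2)
      rwa [sub_add_cancel] at this
    have h4 : |a / 2| = |a| / 2 := by rw [abs_div, abs_two]
    rw [hR]
    linarith
  obtain ⟨a₁, -, φ, hφ, hcl⟩ := (isCompact_Icc : IsCompact (Set.Icc (-R) R)).tendsto_subseq
    (fun j => abs_le.1 (hc2 j))
  obtain ⟨s, hsd⟩ : ∃ s : ℕ → ℝ, s = fun j => t (φ j) := ⟨_, rfl⟩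
  have s0 : ∀ j, 0 < s j := fun j => by rw [hsd]; exact t0 _
  have sl : Tendsto s atTop (𝓝 0) := by rw [hsd]; exact tl.comp hφ.tendsto_atTop
  have sst : ∀ j, s j ≤ t₀ := fun j => by rw [hsd]; exact t1 _
  obtain ⟨d, hd⟩ : ∃ d : ℕ → ℝ, d = fun j => c (φ j) := ⟨_, rfl⟩
  have dl : Tendsto d atTop (𝓝 a₁) := by rw [hd]; exact hcl
  obtain ⟨q, hq⟩ : ∃ q : ℕ → ℝ, q = fun j => κ (φ j) := ⟨_, rfl⟩
  have hq' : ∀ j, q j = k' + d j * s j := fun j => by rw [hq, hd, hsd]; exact hκ _
  have ql : Tendsto q atTop (𝓝 k') := by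
    have h1 : Tendsto (fun j => k' + d j * s j) atTop (𝓝 (k' + a₁ * 0)) :=
      tendsto_const_nhds.add (dl.mul sl)
    rw [mul_zero, add_zero] at h1
    exact h1.congr fun j => (hq' j).symm
  have hQ : ∀ j, PT B μ r k a l k' K (s j) F H m' (q j) (mt (φ j)) := fun j => by
    rw [hq, hsd]; exact hPT _
  have hd1 : ∀ j, |d j - a / 2| ≤ K * (|a| + l + s j) / k := fun j => by
    rw [hd, hsd]; exact hc1 _
  have hd2 : ∀ j, |d j| ≤ R := fun j => by rw [hd]; exact hc2 _
  -- the limit of the coefficient of the bounds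
  have hbl : Tendsto (fun j => K * (|a| + l + s j) / k) atTop (𝓝 (K * (|a| + l) / k)) := by
    have h1 : Tendsto (fun j => K * (|a| + l + s j) / k) atTop (𝓝 (K * (|a| + l + 0) / k)) :=
      ((tendsto_const_nhds.add sl).const_mul K).div_const k
    rwa [add_zero] at h1
  have hbl2 : Tendsto (fun j => (l + s j) / 8 + K * (|a| + l + s j) / k) atTop
      (𝓝 (l / 8 + K * (|a| + l) / k)) := by
    have h1 : Tendsto (fun j => (l + s j) / 8) atTop (𝓝 ((l + 0) / 8)) :=
      (tendsto_const_nhds.add sl).div_const 8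
    rw [add_zero] at h1
    exact h1.add hbl
  have ha1 : |a₁ - a / 2| ≤ K * (|a| + l) / k :=
    le_of_tendsto_of_tendsto' ((dl.sub_const (a / 2)).abs) hbl hd1
  -- the limit of the quotient
  have hql : ∀ u : (Mat N)ˣ, Tendsto (fun j =>
      (convC μ (fun u => F u + s j * H u) (fun u => F u + s j * H u) u /
        convC μ (fun u => F u + s j * H u) (fun u => F u + s j * H u) 1 -
        convC μ F F u / convC μ F F 1) / s j) atTop (𝓝 (dN μ F H u)) := by
    intro u
    have h1 := quot_lim (A := convC μ F F u) (B := dC μ F H u) (C := convC μ H H u)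
      (A1 := convC μ F F 1) (B1 := dC μ F H 1) (C1 := convC μ H H 1) hW sl
      (fun j => (s0 j).ne') (fun j => by
        rw [← convC_pert hF.hol hH.hol]; exact (hQ j).ne)
    refine h1.congr fun j => ?_
    rw [← convC_pert hF.hol hH.hol, ← convC_pert hF.hol hH.hol]
  -- near the identity
  have hA0 : ∀ x, nC x < r → nC2 μ F (uE B x) = Complex.exp (-(k' / 2) * qC x - m' x) := by
    intro x hx
    unfold nC2
    rw [hs.eq x hx, mul_div_assoc, mul_comm, div_mul_cancel₀ _ hW]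
  have hAne : ∀ x, nC x < r → nC2 μ F (uE B x) ≠ 0 := fun x hx => by
    rw [hA0 x hx]; exact Complex.exp_ne_zero _
  obtain ⟨ψ, hψ⟩ : ∃ ψ : (Fin n → ℂ) → ℂ, ψ = fun x => dN μ F H (uE B x) / nC2 μ F (uE B x) :=
    ⟨_, rfl⟩
  have hml : ∀ x, nC x < r → Tendsto (fun j => (mt (φ j) x - m' x) / s j) atTop
      (𝓝 (-(a₁ / 2) * qC x - ψ x)) := by
    intro x hx
    obtain ⟨D, hD⟩ : ∃ D : ℕ → ℂ, D = fun j =>
        -((((q j - k' : ℝ) : ℂ)) / 2) * qC x - (mt (φ j) x - m' x) := ⟨_, rfl⟩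
    have h1 : ∀ j, Complex.exp (D j) =
        (convC μ (fun u => F u + s j * H u) (fun u => F u + s j * H u) (uE B x) /
        convC μ (fun u => F u + s j * H u) (fun u => F u + s j * H u) 1) /
          nC2 μ F (uE B x) := by
      intro j
      rw [hA0 x hx, (hQ j).near x hx, mul_div_assoc, mul_comm (convC _ _ _ 1),
        div_mul_cancel₀ _ (hQ j).ne, ← Complex.exp_sub, hD]
      congr 1
      push_cast
      ring
    have h2 : Tendsto (fun j => (Complex.exp (D j) - 1) / s j) atTop (𝓝 (ψ x)) := by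
      have h3 := (hql (uE B x)).div_const (nC2 μ F (uE B x))
      rw [hψ]
      refine h3.congr fun j => ?_
      rw [h1 j]
      have h4 := hAne x hx
      have h5 : (s j : ℂ) ≠ 0 := Complex.ofReal_ne_zero.2 (s0 j).ne'
      have h6 : convC μ F F (uE B x) / convC μ F F 1 = nC2 μ F (uE B x) := rfl
      rw [h6, div_div, mul_comm (s j : ℂ), ← div_div, sub_div, div_self h4]
    have hn0 := Pool.Agent.N991.MK.nC_nonneg x
    have h3 : ∀ j, ‖D j‖ ≤ (R / 2 * nC x ^ 2 + ((l + t₀) / 8 + K * (|a| + l + t₀) / k) *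
        nC x ^ 4) * s j := by
      intro j
      have e1 := s0 j
      have e2 := hd2 j
      have e3 := (hQ j).dm x hx
      have e4 := sst j
      rw [hD]
      refine (norm_sub_le _ _).trans ?_
      rw [norm_mul, norm_neg, norm_div, Complex.norm_real, Real.norm_eq_abs]
      have e5 : |q j - k'| ≤ R * s j := by
        rw [hq' j, add_sub_cancel_left, abs_mul, abs_of_pos e1]
        exact mul_le_mul_of_nonneg_right e2 e1.le
      have e6 : ‖(2 : ℂ)‖ = 2 := by norm_num
      rw [e6]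
      have e7 : |q j - k'| / 2 * ‖qC x‖ ≤ R * s j / 2 * nC x ^ 2 :=
        mul_le_mul (by linarith) (norm_qC_le x) (norm_nonneg _) (by positivity)
      have e8 : s j * ((l + s j) / 8 + K * (|a| + l + s j) / k) * nC x ^ 4 ≤
          s j * ((l + t₀) / 8 + K * (|a| + l + t₀) / k) * nC x ^ 4 := by
        gcongr
      calc _ ≤ R * s j / 2 * nC x ^ 2 +
            s j * ((l + t₀) / 8 + K * (|a| + l + t₀) / k) * nC x ^ 4 :=
            add_le_add e7 (e3.trans e8)
        _ = _ := by ring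
    have h4 := log_lim sl s0 h3 h2
    have h5 : Tendsto (fun j => -((d j : ℂ) / 2) * qC x) atTop (𝓝 (-((a₁ : ℂ) / 2) * qC x)) := by
      have h6 : Tendsto (fun j => (d j : ℂ)) atTop (𝓝 (a₁ : ℂ)) :=
        (Complex.continuous_ofReal.tendsto a₁).comp dl
      exact ((h6.div_const 2).neg).mul_const _
    refine (h5.sub h4).congr fun j => ?_
    have e1 : (s j : ℂ) ≠ 0 := Complex.ofReal_ne_zero.2 (s0 j).ne'
    rw [hD]
    beta_reduce
    rw [hq' j, add_sub_cancel_left]
    push_cast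
    field_simp
    ring
  refine ⟨a₁, fun x => -(a₁ / 2) * qC x - ψ x, ⟨by positivity, by positivity,
    fun x hx => ?_, fun x hx => ?_, fun x hx => ?_, fun x hx => ?_, fun v y hv hc' => ?_⟩, ha1⟩
  · have h4 := hAne x hx
    rw [sub_sub_cancel, hψ]
    beta_reduce
    rw [mul_div_cancel₀ _ h4]
  · rw [hψ]
    have h1 : Differentiable ℂ fun x : Fin n → ℂ => dN μ F H (uE B x) :=
      FE_diff (B := B) (G := G) (cf_dn (μ := μ) hF hH).hol
    have h2 : Differentiable ℂ fun x : Fin n → ℂ => nC2 μ F (uE B x) :=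
      FE_diff (B := B) (G := G) (cf_n2 (μ := μ) hF).hol
    have h3 : DifferentiableAt ℂ
        (fun x : Fin n → ℂ => dN μ F H (uE B x) / nC2 μ F (uE B x)) x := by
      obtain ⟨Φ, hΦ⟩ : ∃ Φ : (Fin n → ℂ) → ℂ, Φ = fun x => dN μ F H (uE B x) := ⟨_, rfl⟩
      obtain ⟨Ψ, hΨ⟩ : ∃ Ψ : (Fin n → ℂ) → ℂ, Ψ = fun x => nC2 μ F (uE B x) := ⟨_, rfl⟩
      have e1 : (fun x : Fin n → ℂ => dN μ F H (uE B x) / nC2 μ F (uE B x)) =
          fun x => Φ x * (Ψ x)⁻¹ := by rw [hΦ, hΨ]; funext x; rw [div_eq_mul_inv]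
      have e2 : DifferentiableAt ℂ Φ x := by rw [hΦ]; exact h1 x
      have e3 : DifferentiableAt ℂ Ψ x := by rw [hΨ]; exact h2 x
      have e4 : Ψ x ≠ 0 := by rw [hΨ]; exact hAne x hx
      rw [e1]
      exact e2.mul (e3.fun_inv e4)
    exact ((differentiableAt_const _).mul (qC_diff x)).sub h3
  · rw [hψ]
    beta_reduce
    rw [uE_neg, (cf_dn (μ := μ) hF hH).sym, (cf_n2 (μ := μ) hF).sym, N988.MK.qC_neg]
  · have h1 := (hml x hx).norm
    have h2 := hbl2.mul_const (nC x ^ 4)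
    refine le_of_tendsto_of_tendsto' h1 h2 fun j => ?_
    have e1 := s0 j
    rw [norm_div, Complex.norm_real, Real.norm_eq_abs, abs_of_pos e1, div_le_iff₀ e1]
    refine ((hQ j).dm x hx).trans (le_of_eq ?_)
    ring
  · have h1 := (hql (uE B (Complex.I • rl v) * uG y)).norm
    have h2 : Tendsto (fun j => K * (|a| + l + s j) / k *
        Real.exp (min k' (q j) / 2 * (1.01 * nE v ^ 2 - 0.99 * min (nN y) r ^ 2))) atTop
        (𝓝 (K * (|a| + l) / k *
        Real.exp (k' / 2 * (1.01 * nE v ^ 2 - 0.99 * min (nN y) r ^ 2)))) := by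
      refine hbl.mul ?_
      have h3 : Tendsto (fun j => min k' (q j)) atTop (𝓝 (min k' k')) :=
        tendsto_const_nhds.min ql
      rw [min_self] at h3
      exact (Real.continuous_exp.tendsto _).comp ((h3.div_const 2).mul_const _)
    refine le_of_tendsto_of_tendsto' h1 h2 fun j => ?_
    have e1 := s0 j
    rw [norm_div, Complex.norm_real, Real.norm_eq_abs, abs_of_pos e1, div_le_iff₀ e1]
    refine ((hQ j).far v y hv hc').trans (le_of_eq ?_)
    ring

end

end Pool.Agent.N985.T3
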