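import Mathlib
import Pool.Agent.N985.T3.Lim2
import Pool.Agent.N988.MK.Tan2

/-!
# The tangent vector after one convolution square
-/

open MeasureTheory Filter Metric Asymptotics Matrix
open scoped Matrix.Norms.Frobenius Topology ContDiff
open Pool.Agent.H906R3.YM Pool.Agent.W793.YM Pool.Agent.TH618.YM Pool.Agent.N984.TW
open Pool.Agent.N991.MK Pool.Agent.N988.MK

namespace Pool.Agent.N985.T3

set_option linter.unusedSectionVars false

noncomputable section

variable {N n : ℕ} {G : Subgroup (UN N)} {B : Frame G n}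
variable [CompactSpace G] [MeasurableSpace G] [BorelSpace G]

/-- **the tangent vector after one convolution square** -/
theorem lim_conv (μ : Measure G) [IsProbabilityMeasure μ] [μ.IsMulLeftInvariant]
    [μ.IsMulRightInvariant] [μ.IsInvInvariant] (hG : IsClosed (G : Set (UN N))) (hI : IsoG B)
    (hn : 0 < n) :
    ∃ r₁ ε₁ : ℝ, 0 < r₁ ∧ r₁ ≤ 1 ∧ 0 < ε₁ ∧ ε₁ ≤ 1 / 2000 ∧
      ∀ ε : ℝ, 0 < ε → ε ≤ ε₁ → ∀ r : ℝ, 0 < r → r ≤ r₁ → GoodR B r ∧
      ∃ k₀ K : ℝ, 1 ≤ k₀ ∧ 0 ≤ K ∧ ∀ {k M a lam L : ℝ} {f g : G → ℝ} {F H : (Mat N)ˣ → ℂ}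
        {m η : (Fin n → ℂ) → ℂ}, k₀ ≤ k → (M + 1) * r ^ 2 ≤ ε * (k - 1) →
        NR B r ε k M f F m → TubeS B r k F → CF g H → Tg B r k a lam L F H η →
        ∀ {k' M' : ℝ} {m' : (Fin n → ℂ) → ℂ}, St B r k' M' (convC μ F F) m' →
        ∃ (a₁ : ℝ) (η₁ : (Fin n → ℂ) → ℂ),
          Tg B r k' a₁ (max lam L / 8 + K * (|a| + max lam L) / k)
            (K * (|a| + max lam L) / k) (nC2 μ F) (dN μ F H) η₁ ∧
          |a₁ - a / 2| ≤ K * (|a| + max lam L) / k := by
  obtain ⟨r₁, ε₁, ε₂, hr₁, hr₁1, hε₁, hε₁2, hε₂, hε₂1, hP⟩ := pair_DN (B := B) μ hG hI hn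
  obtain ⟨r₀, C, b, Cm, Cq, r₂, ε₃, hr₂, hr₂1, hε₃, hε₃2, hCm, hCq, hCqr, hHy⟩ := exists_HyN B hG μ
  refine ⟨min r₁ r₂, min ε₁ ε₃, lt_min hr₁ hr₂, (min_le_left _ _).trans hr₁1, lt_min hε₁ hε₃,
    (min_le_left _ _).trans hε₁2, fun ε hε hεε r hr hrr => ?_⟩
  obtain ⟨hgr, ka, Ka, hka, hKa, hp⟩ := hP ε hε (hεε.trans (min_le_left _ _)) r hr
    (hrr.trans (min_le_left _ _))
  obtain ⟨-, kb, hkb, hy⟩ := hHy r hr (hrr.trans (min_le_right _ _))
  have hε3' : ε ≤ ε₃ := hεε.trans (min_le_right _ _)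
  have hε2000 : ε ≤ 1 / 2000 := hε3'.trans hε₃2
  have hr1 : r ≤ 1 := (hrr.trans (min_le_left _ _)).trans hr₁1
  have hr21 : r ^ 2 ≤ 1 := pow_le_one₀ hr.le hr1
  refine ⟨hgr, max (ka + 1) (max (kb + 1) 2), 2 * Ka, ?_, by positivity, ?_⟩
  · have := (le_max_left (ka + 1) (max (kb + 1) 2)); linarith
  intro k M a lam L f g F H m η hk hMr hN hS hg T k' M' m' hs
  have l1 : ka + 1 ≤ k := (le_max_left _ _).trans hk
  have l2 : kb + 1 ≤ k := ((le_max_left _ _).trans (le_max_right _ _)).trans hk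
  have l3 : 2 ≤ k := ((le_max_right _ _).trans (le_max_right _ _)).trans hk
  have hk0 : 0 < k := by linarith
  have hM0 := hN.M0
  have hW : convC μ F F 1 ≠ 0 := by
    have hMr' : M * r ^ 2 ≤ ε₃ * k := by
      refine hN.Ml.trans ?_
      exact mul_le_mul_of_nonneg_right hε3' hk0.le
    obtain ⟨Y, -⟩ := hy (k := k) (by linarith) hM0 hMr' hN.cf hN.ne hN.st hN.tb
    rw [conv_one (B := B) (hG := hG) hN.cf]
    exact Y.Wne
  -- the normalised case
  have key : ∀ {a lam L : ℝ} {g : G → ℝ} {H : (Mat N)ˣ → ℂ} {η : (Fin n → ℂ) → ℂ},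
      |a| + lam + L ≤ 1 → CF g H → Tg B r k a lam L F H η →
      ∃ (a₁ : ℝ) (η₁ : (Fin n → ℂ) → ℂ),
          Tg B r k' a₁ (max lam L / 8 + 2 * Ka * (|a| + max lam L) / k)
            (2 * Ka * (|a| + max lam L) / k) (nC2 μ F) (dN μ F H) η₁ ∧
          |a₁ - a / 2| ≤ 2 * Ka * (|a| + max lam L) / k := by
    intro a lam L g H η hnm hg T
    obtain ⟨l, hl⟩ : ∃ l, l = max lam L := ⟨_, rfl⟩
    rw [← hl]
    have hlam := T.lam0
    have hL := T.L0
    have ha0 := abs_nonneg a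
    have hl0 : 0 ≤ l := by rw [hl]; exact hlam.trans (le_max_left _ _)
    have hl1 : l ≤ 1 := by rw [hl]; exact max_le (by linarith) (by linarith)
    refine lim_aux (f := f) (g := g) (t₀ := min (1 / 100) (ε₂ / 5)) hN.cf hg hk0 hl0
      (by positivity) (by positivity) hs hW fun t ht0 htt => ?_
    have ht1 : t ≤ 1 / 100 := htt.trans (min_le_left _ _)
    have ht2 : t ≤ ε₂ / 5 := htt.trans (min_le_right _ _)
    have htabs : |t| = t := abs_of_pos ht0
    have hta : |t * a| ≤ t := by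
      rw [abs_mul, htabs]
      exact mul_le_of_le_one_right ht0.le (by linarith)
    have hta' := abs_le.1 hta
    have N2 := Tg_nr T hgr hN hg hS hnm (by rw [htabs]; exact ht1) (by linarith) hMr hε2000 hε.le
    have D := Tg_dd (m := m) T hgr hnm (by rw [htabs]; exact ht1)
    rw [htabs, ← hl] at D
    have hMr2 : (M + 1) * r ^ 2 ≤ ε₃ * (k + t * a) := by
      refine hMr.trans ?_
      refine mul_le_mul hε3' (by linarith) (by linarith) hε₃.le
    obtain ⟨Y, -⟩ := hy (k := k + t * a) (by linarith) (by linarith) hMr2 N2.cf N2.ne N2.st N2.tb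
    obtain ⟨δ, -, -, -, -, hδ⟩ := Y.exists_delta hI hn
    have hst := Hy.new_state Y hδ
    obtain ⟨κ, hκ⟩ : ∃ κ, κ = (k + t * a) / 2 + 2 * δ := ⟨_, rfl⟩
    rw [← hκ] at hst
    obtain ⟨mn, hmn⟩ : ∃ mn : (Fin n → ℂ) → ℂ, mn = fun x =>
      2 * N991.MK.mT a t m η ((1 / 2 : ℂ) • x) + (Y.ll x - δ * qC x) := ⟨_, rfl⟩
    rw [← hmn] at hst
    have hmin : 1 ≤ min k (k + t * a) := le_min (by linarith) (by linarith)
    have hmin2 : k / 2 ≤ min k (k + t * a) := le_min (by linarith) (by linarith)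
    have hd0 : |k + t * a - k| + 2 * (t * l + t ^ 2) * r ^ 2 ≤ ε₂ * min k (k + t * a) := by
      rw [add_sub_cancel_left]
      have e1 : t * l ≤ t := mul_le_of_le_one_right ht0.le hl1
      have e2 : t ^ 2 ≤ t := by
        rw [sq]; exact mul_le_of_le_one_right ht0.le (by linarith)
      have e3 : 2 * (t * l + t ^ 2) * r ^ 2 ≤ 2 * (t * l + t ^ 2) :=
        mul_le_of_le_one_right (by positivity) hr21
      have e4 : ε₂ * 1 ≤ ε₂ * min k (k + t * a) := mul_le_mul_of_nonneg_left hmin hε₂.le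
      linarith
    have hpp := hp (k₁ := k) (k₂ := k + t * a) (by linarith) (by linarith) hN N2 D hd0 hs hst
    rw [add_sub_cancel_left] at hpp
    obtain ⟨p1, p2, p3⟩ := hpp
    have hb : Ka * (|t * a| + (t * l + t ^ 2)) / min k (k + t * a) ≤
        t * (2 * Ka * (|a| + l + t) / k) := by
      rw [abs_mul, htabs]
      rw [div_le_iff₀ (by linarith)]
      have e1 : t * (2 * Ka * (|a| + l + t) / k) * (k / 2) ≤
          t * (2 * Ka * (|a| + l + t) / k) * min k (k + t * a) :=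
        mul_le_mul_of_nonneg_left hmin2 (by positivity)
      refine le_trans (le_of_eq ?_) e1
      field_simp
      ring
    refine ⟨κ, mn, ?_, fun x hx => hst.eq x hx, ?_, fun x hx => ?_, fun v y hv hc => ?_⟩
    · rw [conv_one (B := B) (hG := hG) N2.cf]
      exact Y.Wne
    · exact p1.trans hb
    · refine (p2 x hx).trans ?_
      refine mul_le_mul_of_nonneg_right ?_ (by have := Pool.Agent.N991.MK.nC_nonneg x; positivity)
      calc (t * l + t ^ 2) / 8 + Ka * (|t * a| + (t * l + t ^ 2)) / min k (k + t * a)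
          ≤ (t * l + t ^ 2) / 8 + t * (2 * Ka * (|a| + l + t) / k) := by linarith
        _ = _ := by ring
    · have h1 := p3 v y hv hc
      rw [← conv_one (B := B) (hG := hG) hN.cf] at h1
      have h2 := conv_one (B := B) (hG := hG) (μ := μ) N2.cf
      rw [← h2] at h1
      refine h1.trans ?_
      exact mul_le_mul_of_nonneg_right hb (Real.exp_pos _).le
  -- the general case
  by_cases hnm : |a| + lam + L ≤ 1
  · exact key hnm hg T
  · push Not at hnm
    obtain ⟨S, hSd⟩ : ∃ S, S = |a| + lam + L := ⟨_, rfl⟩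
    have hS0 : 0 < S := by rw [hSd]; linarith
    have hlam := T.lam0
    have hL := T.L0
    have T' := Tg_smul T S⁻¹
    have hSi : 0 < S⁻¹ := inv_pos.2 hS0
    have e0 : |S⁻¹| = S⁻¹ := abs_of_pos hSi
    rw [e0] at T'
    have h1 : |S⁻¹ * a| + S⁻¹ * lam + S⁻¹ * L ≤ 1 := by
      rw [abs_mul, e0]
      have : S⁻¹ * |a| + S⁻¹ * lam + S⁻¹ * L = S⁻¹ * S := by rw [hSd]; ring
      rw [this, inv_mul_cancel₀ hS0.ne']
    obtain ⟨a₁, η₁, T1, hb⟩ := key h1 (cf_smul' hg S⁻¹) T'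
    have T2 := Tg_smul T1 S
    have e1 : |S| = S := abs_of_pos hS0
    have e2 : max (S⁻¹ * lam) (S⁻¹ * L) = S⁻¹ * max lam L := by
      rw [mul_max_of_nonneg _ _ hSi.le]
    have e3 : |S⁻¹ * a| = S⁻¹ * |a| := by rw [abs_mul, e0]
    have hSS : S * S⁻¹ = 1 := mul_inv_cancel₀ hS0.ne'
    have e4 : S * (S⁻¹ * max lam L / 8 + 2 * Ka * (S⁻¹ * |a| + S⁻¹ * max lam L) / k) =
        max lam L / 8 + 2 * Ka * (|a| + max lam L) / k := by
      field_simp
    have e5 : S * (2 * Ka * (S⁻¹ * |a| + S⁻¹ * max lam L) / k) =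
        2 * Ka * (|a| + max lam L) / k := by
      field_simp
    rw [e1, e2, e3, e4, e5] at T2
    have e6 : (fun u => (S : ℂ) * dN μ F (fun u => ((S⁻¹ : ℝ) : ℂ) * H u) u) = dN μ F H := by
      funext u
      rw [dN_smul]
      beta_reduce
      rw [← mul_assoc, ← Complex.ofReal_mul, hSS, Complex.ofReal_one, one_mul]
    rw [e6] at T2
    refine ⟨S * a₁, _, T2, ?_⟩
    rw [e2, e3] at hb
    have e7 : S * a₁ - a / 2 = S * (a₁ - S⁻¹ * a / 2) := by
      have : S * (S⁻¹ * a / 2) = a / 2 := by field_simp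
      rw [mul_sub, this]
    rw [e7, abs_mul, e1, ← e5]
    exact mul_le_mul_of_nonneg_left hb hS0.le

end

end Pool.Agent.N985.T3
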