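import Mathlib

/-!
# Gaussian moments
-/

open MeasureTheory Filter
open scoped Topology

namespace Pool.Agent.N985.T3

noncomputable section

variable {h : ℝ}

lemma int1 (hh : 0 < h) (k : ℕ) : Integrable fun x : ℝ => x ^ k * Real.exp (-h * x ^ 2) := by
  have h1 := integrable_rpow_mul_exp_neg_mul_sq (b := h) hh (s := (k : ℝ))
    (by have := Nat.cast_nonneg (α := ℝ) k; linarith)
  refine h1.congr (Eventually.of_forall fun x => ?_)
  beta_reduce
  rw [Real.rpow_natCast]

lemma mom1_succ (hh : 0 < h) (k : ℕ) : ∫ x : ℝ, x ^ (k + 2) * Real.exp (-h * x ^ 2) =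
    (k + 1) / (2 * h) * ∫ x : ℝ, x ^ k * Real.exp (-h * x ^ 2) := by
  have h2 : (2 * h) ≠ 0 := by positivity
  have hu : ∀ x ∈ tsupport (fun x : ℝ => -(1 / (2 * h)) * Real.exp (-h * x ^ 2)),
      HasDerivAt (fun x : ℝ => x ^ (k + 1)) ((k + 1 : ℝ) * x ^ k) x := by
    intro x _
    have := hasDerivAt_pow (k + 1) x
    push_cast at this
    simpa using this
  have hv : ∀ x ∈ tsupport (fun x : ℝ => x ^ (k + 1)),
      HasDerivAt (fun x : ℝ => -(1 / (2 * h)) * Real.exp (-h * x ^ 2))
        (x * Real.exp (-h * x ^ 2)) x := by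
    intro x _
    have h3 : HasDerivAt (fun x : ℝ => -h * x ^ 2) (-h * (2 * x)) x := by
      have := (hasDerivAt_pow 2 x).const_mul (-h)
      simpa using this
    have h4 := (h3.exp).const_mul (-(1 / (2 * h)))
    refine h4.congr_deriv ?_
    field_simp
  have i1 : Integrable ((fun x : ℝ => x ^ (k + 1)) * fun x : ℝ => x * Real.exp (-h * x ^ 2)) := by
    refine (int1 hh (k + 2)).congr (Eventually.of_forall fun x => ?_)
    simp only [Pi.mul_apply]
    ring
  have i2 : Integrable ((fun x : ℝ => (k + 1 : ℝ) * x ^ k) *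
      fun x : ℝ => -(1 / (2 * h)) * Real.exp (-h * x ^ 2)) := by
    refine ((int1 hh k).const_mul ((k + 1 : ℝ) * -(1 / (2 * h)))).congr
      (Eventually.of_forall fun x => ?_)
    simp only [Pi.mul_apply]
    ring
  have i3 : Integrable ((fun x : ℝ => x ^ (k + 1)) *
      fun x : ℝ => -(1 / (2 * h)) * Real.exp (-h * x ^ 2)) := by
    refine ((int1 hh (k + 1)).const_mul (-(1 / (2 * h)))).congr (Eventually.of_forall fun x => ?_)
    simp only [Pi.mul_apply]
    ring
  have h5 := integral_mul_deriv_eq_deriv_mul_of_integrable hu hv i1 i2 i3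
  have e1 : ∫ x : ℝ, x ^ (k + 2) * Real.exp (-h * x ^ 2) =
      ∫ x : ℝ, x ^ (k + 1) * (x * Real.exp (-h * x ^ 2)) := by
    refine integral_congr_ae (Eventually.of_forall fun x => ?_)
    beta_reduce
    ring
  rw [e1, h5, ← integral_neg, ← integral_const_mul]
  refine integral_congr_ae (Eventually.of_forall fun x => ?_)
  beta_reduce
  field_simp

/-- the normalised moments -/
def nu (h : ℝ) (k : ℕ) : ℝ := (∫ x : ℝ, x ^ k * Real.exp (-h * x ^ 2)) /
  ∫ x : ℝ, x ^ 0 * Real.exp (-h * x ^ 2)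

lemma m0_pos (hh : 0 < h) : 0 < ∫ x : ℝ, x ^ 0 * Real.exp (-h * x ^ 2) := by
  have e : ∫ x : ℝ, x ^ 0 * Real.exp (-h * x ^ 2) = ∫ x : ℝ, Real.exp (-h * x ^ 2) := by
    simp
  rw [e, integral_gaussian]
  positivity

lemma nu_zero (hh : 0 < h) : nu h 0 = 1 := div_self (m0_pos hh).ne'

lemma nu_one : nu h 1 = 0 := by
  have e : ∫ x : ℝ, x ^ 1 * Real.exp (-h * x ^ 2) = 0 := by
    have h1 := integral_neg_eq_self (fun x : ℝ => x ^ 1 * Real.exp (-h * x ^ 2)) volume
    have h2 : ∫ x : ℝ, (-x) ^ 1 * Real.exp (-h * (-x) ^ 2) =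
        -∫ x : ℝ, x ^ 1 * Real.exp (-h * x ^ 2) := by
      rw [← integral_neg]
      refine integral_congr_ae (Eventually.of_forall fun x => ?_)
      beta_reduce
      rw [neg_sq]
      ring
    rw [h2] at h1
    linarith
  unfold nu
  rw [e, zero_div]

lemma nu_succ (hh : 0 < h) (k : ℕ) : nu h (k + 2) = (k + 1) / (2 * h) * nu h k := by
  unfold nu
  rw [mom1_succ hh k, mul_div_assoc]

lemma nu_two (hh : 0 < h) : nu h 2 = 1 / (2 * h) := by
  have h1 := nu_succ hh 0
  rw [nu_zero hh] at h1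
  simpa using h1

lemma nu_four (hh : 0 < h) : nu h 4 = 3 / (4 * h ^ 2) := by
  have h1 := nu_succ hh 2
  have h2 : nu h 4 = nu h (2 + 2) := rfl
  rw [h2, h1, nu_two hh]
  push_cast
  field_simp
  ring

variable {n : ℕ}

/-- the norm square -/
def us (x : Fin n → ℝ) : ℝ := ∑ b, x b ^ 2

/-- the scalar product -/
def sc (x y : Fin n → ℝ) : ℝ := ∑ b, x b * y b

/-- the Gaussian function -/
def ga (h : ℝ) (x : Fin n → ℝ) : ℝ := Real.exp (-h * us x)

lemma ga_prod (h : ℝ) (x : Fin n → ℝ) : ga h x = ∏ b, Real.exp (-h * x b ^ 2) := by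
  unfold ga us
  rw [Finset.mul_sum, Real.exp_sum]

/-- the total mass -/
def M0 (n : ℕ) (h : ℝ) : ℝ := ∫ x : Fin n → ℝ, ga h x

lemma mon_eq (h : ℝ) (k : Fin n → ℕ) (x : Fin n → ℝ) :
    (∏ b, x b ^ k b) * ga h x = ∏ b, (x b ^ k b * Real.exp (-h * x b ^ 2)) := by
  rw [ga_prod, Finset.prod_mul_distrib]

lemma intN (hh : 0 < h) (k : Fin n → ℕ) :
    Integrable fun x : Fin n → ℝ => (∏ b, x b ^ k b) * ga h x := by
  have h1 := Integrable.fintype_prod (ι := Fin n) (𝕜 := ℝ)
    (f := fun b (t : ℝ) => t ^ k b * Real.exp (-h * t ^ 2)) (μ := fun _ => volume)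
    (fun b => int1 hh (k b))
  refine h1.congr (Eventually.of_forall fun x => ?_)
  beta_reduce
  rw [mon_eq]

lemma momN (hh : 0 < h) (k : Fin n → ℕ) :
    ∫ x : Fin n → ℝ, (∏ b, x b ^ k b) * ga h x = (∏ b, nu h (k b)) * M0 n h := by
  have h2 : ∀ k : Fin n → ℕ, ∫ x : Fin n → ℝ, (∏ b, x b ^ k b) * ga h x =
      ∏ b, ∫ t : ℝ, t ^ k b * Real.exp (-h * t ^ 2) := by
    intro k
    rw [← integral_fintype_prod_volume_eq_prod (fun b (t : ℝ) => t ^ k b * Real.exp (-h * t ^ 2))]
    refine integral_congr_ae (Eventually.of_forall fun x => ?_)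
    beta_reduce
    rw [mon_eq]
  have h3 : M0 n h = ∏ _b : Fin n, ∫ t : ℝ, t ^ 0 * Real.exp (-h * t ^ 2) := by
    have := h2 fun _ => 0
    unfold M0
    rw [← this]
    refine integral_congr_ae (Eventually.of_forall fun x => ?_)
    simp
  rw [h2, h3, ← Finset.prod_mul_distrib]
  refine Finset.prod_congr rfl fun b _ => ?_
  unfold nu
  rw [div_mul_cancel₀ _ (m0_pos hh).ne']

lemma M0_pos (hh : 0 < h) : 0 < M0 n h := by
  have h2 : ∀ k : Fin n → ℕ, ∫ x : Fin n → ℝ, (∏ b, x b ^ k b) * ga h x =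
      ∏ b, ∫ t : ℝ, t ^ k b * Real.exp (-h * t ^ 2) := by
    intro k
    rw [← integral_fintype_prod_volume_eq_prod (fun b (t : ℝ) => t ^ k b * Real.exp (-h * t ^ 2))]
    refine integral_congr_ae (Eventually.of_forall fun x => ?_)
    beta_reduce
    rw [mon_eq]
  have h3 : M0 n h = ∏ _b : Fin n, ∫ t : ℝ, t ^ 0 * Real.exp (-h * t ^ 2) := by
    have := h2 fun _ => 0
    unfold M0
    rw [← this]
    refine integral_congr_ae (Eventually.of_forall fun x => ?_)
    simp
  rw [h3]
  exact Finset.prod_pos fun b _ => m0_pos hh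

/-- exponents of a monomial in two coordinates -/
def ex2 (b c : Fin n) (i l : ℕ) (d : Fin n) : ℕ := (if d = b then i else 0) + if d = c then l else 0

lemma ex2_prod (b c : Fin n) (i l : ℕ) (x : Fin n → ℝ) :
    ∏ d, x d ^ ex2 b c i l d = x b ^ i * x c ^ l := by
  unfold ex2
  simp only [pow_add, Finset.prod_mul_distrib]
  congr 1
  · rw [Finset.prod_eq_single b]
    · simp
    · intro d _ hd; simp [hd]
    · intro hb; exact absurd (Finset.mem_univ _) hb
  · rw [Finset.prod_eq_single c]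
    · simp
    · intro d _ hd; simp [hd]
    · intro hb; exact absurd (Finset.mem_univ _) hb

lemma nu_prod (hh : 0 < h) (b c : Fin n) (i l : ℕ) :
    ∏ d, nu h (ex2 b c i l d) = if b = c then nu h (i + l) else nu h i * nu h l := by
  split_ifs with hbc
  · subst hbc
    rw [Finset.prod_eq_single b]
    · simp [ex2]
    · intro d _ hd
      simp [ex2, hd, nu_zero hh]
    · intro hb; exact absurd (Finset.mem_univ _) hb
  · rw [Finset.prod_eq_mul b c hbc]
    · simp [ex2, hbc, Ne.symm hbc]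
    · rintro d _ ⟨h1, h2⟩
      simp [ex2, h1, h2, nu_zero hh]
    · intro hb; exact absurd (Finset.mem_univ _) hb
    · intro hb; exact absurd (Finset.mem_univ _) hb

lemma int2 (hh : 0 < h) (b c : Fin n) (i l : ℕ) :
    Integrable fun x : Fin n → ℝ => x b ^ i * x c ^ l * ga h x := by
  have h1 := intN hh (ex2 b c i l)
  refine h1.congr (Eventually.of_forall fun x => ?_)
  beta_reduce
  rw [ex2_prod]

lemma mom2 (hh : 0 < h) (b c : Fin n) (i l : ℕ) :
    ∫ x : Fin n → ℝ, x b ^ i * x c ^ l * ga h x =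
      (if b = c then nu h (i + l) else nu h i * nu h l) * M0 n h := by
  rw [← nu_prod hh, ← momN hh]
  refine integral_congr_ae (Eventually.of_forall fun x => ?_)
  beta_reduce
  rw [ex2_prod]

lemma us_eq (x : Fin n → ℝ) (h : ℝ) : us x * ga h x = ∑ b, x b ^ 2 * x b ^ 0 * ga h x := by
  unfold us
  rw [Finset.sum_mul]
  refine Finset.sum_congr rfl fun b _ => ?_
  rw [pow_zero, mul_one]

lemma us2_eq (x : Fin n → ℝ) (h : ℝ) :
    us x ^ 2 * ga h x = ∑ b, ∑ c, x b ^ 2 * x c ^ 2 * ga h x := by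
  unfold us
  rw [sq, Finset.sum_mul_sum, Finset.sum_mul]
  refine Finset.sum_congr rfl fun b _ => ?_
  rw [Finset.sum_mul]

lemma sc2_eq (y x : Fin n → ℝ) (h : ℝ) :
    sc y x ^ 2 * ga h x = ∑ b, ∑ c, y b * y c * (x b ^ 1 * x c ^ 1 * ga h x) := by
  unfold sc
  rw [sq, Finset.sum_mul_sum, Finset.sum_mul]
  refine Finset.sum_congr rfl fun b _ => ?_
  rw [Finset.sum_mul]
  refine Finset.sum_congr rfl fun c _ => ?_
  ring

lemma int_us (hh : 0 < h) : Integrable fun x : Fin n → ℝ => us x * ga h x := by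
  simp only [us_eq]
  exact integrable_finsetSum _ fun b _ => int2 hh b b 2 0

lemma int_us2 (hh : 0 < h) : Integrable fun x : Fin n → ℝ => us x ^ 2 * ga h x := by
  simp only [us2_eq]
  exact integrable_finsetSum _ fun b _ => integrable_finsetSum _ fun c _ => int2 hh b c 2 2

lemma int_sc2 (hh : 0 < h) (y : Fin n → ℝ) :
    Integrable fun x : Fin n → ℝ => sc y x ^ 2 * ga h x := by
  simp only [sc2_eq]
  exact integrable_finsetSum _ fun b _ => integrable_finsetSum _ fun c _ =>
    (int2 hh b c 1 1).const_mul _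

lemma int_ga (hh : 0 < h) : Integrable fun x : Fin n → ℝ => ga h x := by
  have := intN hh (fun _ : Fin n => 0)
  simpa using this

lemma int_sc (hh : 0 < h) (y : Fin n → ℝ) : Integrable fun x : Fin n → ℝ => sc y x * ga h x := by
  have e : (fun x : Fin n → ℝ => sc y x * ga h x) =
      fun x => ∑ b, y b * (x b ^ 1 * x b ^ 0 * ga h x) := by
    funext x
    unfold sc
    rw [Finset.sum_mul]
    refine Finset.sum_congr rfl fun b _ => ?_
    ring
  rw [e]
  exact integrable_finsetSum _ fun b _ => (int2 hh b b 1 0).const_mul _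

lemma int_scus (hh : 0 < h) (y : Fin n → ℝ) :
    Integrable fun x : Fin n → ℝ => sc y x * us x * ga h x := by
  have e : (fun x : Fin n → ℝ => sc y x * us x * ga h x) =
      fun x => ∑ b, ∑ c, y b * (x b ^ 1 * x c ^ 2 * ga h x) := by
    funext x
    unfold sc us
    rw [Finset.sum_mul_sum, Finset.sum_mul]
    refine Finset.sum_congr rfl fun b _ => ?_
    rw [Finset.sum_mul]
    refine Finset.sum_congr rfl fun c _ => ?_
    ring
  rw [e]
  exact integrable_finsetSum _ fun b _ => integrable_finsetSum _ fun c _ =>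
    (int2 hh b c 1 2).const_mul _

lemma mom_us (hh : 0 < h) : ∫ x : Fin n → ℝ, us x * ga h x = n / (2 * h) * M0 n h := by
  simp only [us_eq]
  rw [integral_finsetSum _ fun b _ => int2 hh b b 2 0]
  simp only [mom2 hh, if_true]
  rw [nu_two hh, Finset.sum_const, Finset.card_univ, Fintype.card_fin, nsmul_eq_mul]
  ring

lemma mom_us2 (hh : 0 < h) :
    ∫ x : Fin n → ℝ, us x ^ 2 * ga h x = n * (n + 2) / (4 * h ^ 2) * M0 n h := by
  simp only [us2_eq]
  rw [integral_finsetSum _ fun b _ => integrable_finsetSum _ fun c _ => int2 hh b c 2 2]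
  have e : ∀ b : Fin n, ∫ x : Fin n → ℝ, ∑ c, x b ^ 2 * x c ^ 2 * ga h x =
      (n + 2) / (4 * h ^ 2) * M0 n h := by
    intro b
    rw [integral_finsetSum _ fun c _ => int2 hh b c 2 2]
    simp only [mom2 hh]
    rw [← Finset.sum_mul]
    congr 1
    have e2 : ∀ c : Fin n, (if b = c then nu h (2 + 2) else nu h 2 * nu h 2) =
        1 / (4 * h ^ 2) + if b = c then 2 / (4 * h ^ 2) else 0 := by
      intro c
      rw [nu_two hh, nu_four hh]
      split_ifs
      · ring
      · field_simp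
        ring
    simp only [e2, Finset.sum_add_distrib, Finset.sum_const, Finset.card_univ, Fintype.card_fin,
      nsmul_eq_mul, Finset.sum_ite_eq, Finset.mem_univ, if_true]
    ring
  simp only [e, Finset.sum_const, Finset.card_univ, Fintype.card_fin, nsmul_eq_mul]
  ring

lemma mom_sc2 (hh : 0 < h) (y : Fin n → ℝ) :
    ∫ x : Fin n → ℝ, sc y x ^ 2 * ga h x = us y / (2 * h) * M0 n h := by
  simp only [sc2_eq]
  rw [integral_finsetSum _ fun b _ => integrable_finsetSum _ fun c _ =>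
    (int2 hh b c 1 1).const_mul _]
  have e : ∀ b : Fin n, ∫ x : Fin n → ℝ, ∑ c, y b * y c * (x b ^ 1 * x c ^ 1 * ga h x) =
      y b ^ 2 / (2 * h) * M0 n h := by
    intro b
    rw [integral_finsetSum _ fun c _ => (int2 hh b c 1 1).const_mul _]
    simp only [integral_const_mul, mom2 hh, nu_one, mul_zero]
    rw [Finset.sum_eq_single b]
    · rw [if_pos rfl, nu_two hh]
      ring
    · intro c _ hc
      rw [if_neg (Ne.symm hc), zero_mul, mul_zero]
    · intro hb; exact absurd (Finset.mem_univ _) hb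
  simp only [e]
  unfold us
  rw [← Finset.sum_mul, Finset.sum_div]

lemma odd_zero {f : (Fin n → ℝ) → ℝ} (hf : ∀ x, f (-x) = -f x) : ∫ x, f x = 0 := by
  have h1 := integral_neg_eq_self f (volume : Measure (Fin n → ℝ))
  simp only [hf, integral_neg] at h1
  linarith

lemma us_neg (x : Fin n → ℝ) : us (-x) = us x := by
  unfold us
  simp

lemma ga_neg (x : Fin n → ℝ) : ga h (-x) = ga h x := by
  unfold ga
  rw [us_neg]

lemma sc_neg (y x : Fin n → ℝ) : sc y (-x) = -sc y x := by
  unfold sc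
  simp

lemma mom_sc (y : Fin n → ℝ) : ∫ x : Fin n → ℝ, sc y x * ga h x = 0 :=
  odd_zero fun x => by rw [sc_neg, ga_neg]; ring

lemma mom_scus (y : Fin n → ℝ) : ∫ x : Fin n → ℝ, sc y x * us x * ga h x = 0 :=
  odd_zero fun x => by rw [sc_neg, ga_neg, us_neg]; ring

/-- **the moments of quartic polynomials** -/
lemma mom_poly (hh : 0 < h) (y : Fin n → ℝ) (k0 k1 k2 s1 s3 s2 : ℝ) :
    ∫ x : Fin n → ℝ, (k0 + k1 * us x + k2 * us x ^ 2 + s1 * sc y x + s3 * (sc y x * us x) +
      s2 * sc y x ^ 2) * ga h x =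
      (k0 + k1 * (n / (2 * h)) + k2 * (n * (n + 2) / (4 * h ^ 2)) + s2 * (us y / (2 * h))) *
        M0 n h := by
  have i0 := (int_ga (n := n) hh).const_mul k0
  have i1 := (int_us (n := n) hh).const_mul k1
  have i2 := (int_us2 (n := n) hh).const_mul k2
  have i3 := (int_sc (n := n) hh y).const_mul s1
  have i4 := (int_scus (n := n) hh y).const_mul s3
  have i5 := (int_sc2 (n := n) hh y).const_mul s2
  have e : (fun x : Fin n → ℝ => (k0 + k1 * us x + k2 * us x ^ 2 + s1 * sc y x +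
      s3 * (sc y x * us x) + s2 * sc y x ^ 2) * ga h x) = fun x =>
      k0 * ga h x + k1 * (us x * ga h x) + k2 * (us x ^ 2 * ga h x) + s1 * (sc y x * ga h x) +
        s3 * (sc y x * us x * ga h x) + s2 * (sc y x ^ 2 * ga h x) := by
    funext x
    ring
  rw [e]
  have j1 := i0.add i1
  have j2 := j1.add i2
  have j3 := j2.add i3
  have j4 := j3.add i4
  have a1 := integral_add j4 i5
  have a2 := integral_add j3 i4
  have a3 := integral_add j2 i3
  have a4 := integral_add j1 i2
  have a5 := integral_add i0 i1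
  simp only [Pi.add_apply] at a1 a2 a3 a4 a5
  rw [a1, a2, a3, a4, a5, integral_const_mul, integral_const_mul, integral_const_mul,
    integral_const_mul, integral_const_mul, integral_const_mul, mom_us hh, mom_us2 hh, mom_sc,
    mom_scus, mom_sc2 hh]
  have e0 : ∫ x : Fin n → ℝ, ga h x = M0 n h := rfl
  rw [e0]
  ring

end

end Pool.Agent.N985.T3
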