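import Mathlib
import Pool.Agent.N985.T3.GMom
import Pool.Agent.N109.T3.Sc

/-!
# The two-point function of the field of the free theory
-/

open MeasureTheory Filter
open scoped Topology
open Pool.Agent.N989.MK Pool.Agent.N109.T3

namespace Pool.Agent.N985.T3

noncomputable section

variable {n : ℕ}

/-- quadratic polynomials of the norm square times a Gaussian -/
def qp (h a b c : ℝ) (x : Fin n → ℝ) : ℝ := (a + b * us x + c * us x ^ 2) * ga (h / 2) x

lemma cvR_smul (c d : ℝ) (f g : (Fin n → ℝ) → ℝ) :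
    cvR (fun x => c * f x) (fun x => d * g x) = fun x => c * d * cvR f g x := by
  funext x
  unfold cvR
  rw [← integral_const_mul]
  refine integral_congr_ae (Eventually.of_forall fun y => ?_)
  beta_reduce
  ring

lemma cvR_comm (f g : (Fin n → ℝ) → ℝ) : cvR f g = cvR g f := by
  funext x
  unfold cvR
  rw [← integral_sub_left_eq_self _ _ x]
  refine integral_congr_ae (Eventually.of_forall fun y => ?_)
  beta_reduce
  rw [sub_sub_cancel, mul_comm]

lemma us_half (x z : Fin n → ℝ) : us ((1 / 2 : ℝ) • x + z) = us x / 4 + us z + sc x z := by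
  unfold us sc
  rw [Finset.sum_div, ← Finset.sum_add_distrib, ← Finset.sum_add_distrib]
  refine Finset.sum_congr rfl fun b _ => ?_
  simp only [Pi.add_apply, Pi.smul_apply, smul_eq_mul]
  ring

lemma us_half' (x z : Fin n → ℝ) :
    us (x - ((1 / 2 : ℝ) • x + z)) = us x / 4 + us z - sc x z := by
  unfold us sc
  rw [Finset.sum_div, ← Finset.sum_add_distrib, ← Finset.sum_sub_distrib]
  refine Finset.sum_congr rfl fun b _ => ?_
  simp only [Pi.add_apply, Pi.smul_apply, smul_eq_mul, Pi.sub_apply]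
  ring

/-- **the convolution of polynomials times Gaussians** -/
lemma cv_poly {h : ℝ} (hh : 0 < h) (a b c a' b' c' : ℝ) (h1 : b * c' = 0) (h2 : c * b' = 0)
    (h3 : c * c' = 0) :
    cvR (qp (n := n) h a b c) (qp h a' b' c') = fun x => M0 n h * qp (h / 2)
      (a * a' + (a * b' + b * a') * (n / (2 * h)) +
        (a * c' + b * b' + c * a') * (n * (n + 2) / (4 * h ^ 2)))
      ((a * b' + b * a') / 4 + (a * c' + b * b' + c * a') * (n / (4 * h)) +
        (a * c' + c * a' - b * b') / (2 * h))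
      ((a * c' + b * b' + c * a') / 16) x := by
  funext x
  unfold cvR
  rw [← integral_add_left_eq_self _ ((1 / 2 : ℝ) • x)]
  have e : ∀ z : Fin n → ℝ, qp h a b c ((1 / 2 : ℝ) • x + z) *
      qp h a' b' c' (x - ((1 / 2 : ℝ) • x + z)) =
      ga (h / 4) x * (((a * a' + (a * b' + b * a') * (us x / 4) +
          (a * c' + b * b' + c * a') * (us x / 4) ^ 2) +
        ((a * b' + b * a') + (a * c' + b * b' + c * a') * (2 * (us x / 4))) * us z +
        (a * c' + b * b' + c * a') * us z ^ 2 +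
        ((b * a' - a * b') + (c * a' - a * c') * (2 * (us x / 4))) * sc x z +
        2 * (c * a' - a * c') * (sc x z * us z) +
        (a * c' + c * a' - b * b') * sc x z ^ 2) * ga h z) := by
    intro z
    have e1 : ga (h / 2) ((1 / 2 : ℝ) • x + z) * ga (h / 2) (x - ((1 / 2 : ℝ) • x + z)) =
        ga (h / 4) x * ga h z := by
      unfold ga
      rw [us_half, us_half', ← Real.exp_add, ← Real.exp_add]
      congr 1
      ring
    have e2 : qp h a b c ((1 / 2 : ℝ) • x + z) * qp h a' b' c' (x - ((1 / 2 : ℝ) • x + z)) =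
        (a + b * us ((1 / 2 : ℝ) • x + z) + c * us ((1 / 2 : ℝ) • x + z) ^ 2) *
        (a' + b' * us (x - ((1 / 2 : ℝ) • x + z)) + c' * us (x - ((1 / 2 : ℝ) • x + z)) ^ 2) *
        (ga (h / 2) ((1 / 2 : ℝ) • x + z) * ga (h / 2) (x - ((1 / 2 : ℝ) • x + z))) := by
      unfold qp
      ring
    rw [e2, e1, us_half, us_half']
    have e3 : ∀ p q : ℝ, (a + b * p + c * p ^ 2) * (a' + b' * q + c' * q ^ 2) =
        a * a' + a * b' * q + a * c' * q ^ 2 + b * a' * p + b * b' * (p * q) + c * a' * p ^ 2 := by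
      intro p q
      linear_combination p * q ^ 2 * h1 + p ^ 2 * q * h2 + p ^ 2 * q ^ 2 * h3
    rw [e3]
    ring
  simp only [e]
  rw [integral_const_mul, mom_poly hh]
  unfold qp
  rw [show h / 2 / 2 = h / 4 by ring]
  field_simp
  ring

lemma gs_eq (x : Fin n → ℝ) : gs x = qp 1 1 0 0 x := by
  unfold gs qp ga us
  rw [zero_mul, zero_mul, add_zero, add_zero, one_mul]
  congr 1
  ring

/-- the sheet -/
def sh (f : Fin 4 → (Fin n → ℝ) → ℝ) : (Fin n → ℝ) → ℝ :=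
  cvR (cvR (f 0) (f 1)) (cvR (f 2) (f 3))

/-- the constant of a sheet -/
def KK (n : ℕ) : ℝ := M0 n 1 * M0 n 1 * M0 n (1 / 2)

lemma KK_pos : 0 < KK n :=
  mul_pos (mul_pos (M0_pos one_pos) (M0_pos one_pos)) (M0_pos (by norm_num))

/-- the coefficients of the convolution of two quarters -/
def pA (n : ℕ) (a b c a' b' c' : ℝ) : ℝ :=
  a * a' + (a * b' + b * a') * (n / 2) + (a * c' + b * b' + c * a') * (n * (n + 2) / 4)

/-- the coefficients of the convolution of two quarters -/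
def pB (n : ℕ) (a b c a' b' c' : ℝ) : ℝ :=
  (a * b' + b * a') / 4 + (a * c' + b * b' + c * a') * (n / 4) + (a * c' + c * a' - b * b') / 2

/-- the coefficients of the convolution of two quarters -/
def pD (a b c a' b' c' : ℝ) : ℝ := (a * c' + b * b' + c * a') / 16

lemma cv_pair (C a b c a' b' c' : ℝ) (h1 : b * c' = 0) (h2 : c * b' = 0) (h3 : c * c' = 0) :
    cvR (fun x : Fin n → ℝ => C * qp 1 a b c x) (fun x => C * qp 1 a' b' c' x) = fun x =>
      C ^ 2 * M0 n 1 * qp (1 / 2) (pA n a b c a' b' c') (pB n a b c a' b' c')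
        (pD a b c a' b' c') x := by
  rw [cvR_smul]
  have e : (qp (n := n) 1 a' b' c') = fun x => qp 1 a' b' c' x := rfl
  have h := cv_poly (n := n) one_pos a b c a' b' c' h1 h2 h3
  funext x
  have h' := congrFun h x
  rw [show cvR (fun x : Fin n → ℝ => qp 1 a b c x) (fun x => qp 1 a' b' c' x) x =
    cvR (qp (n := n) 1 a b c) (qp 1 a' b' c') x from rfl, h']
  unfold pA pB pD
  rw [show a * a' + (a * b' + b * a') * ((n : ℝ) / (2 * 1)) +
    (a * c' + b * b' + c * a') * (n * (n + 2) / (4 * 1 ^ 2)) =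
    a * a' + (a * b' + b * a') * (n / 2) + (a * c' + b * b' + c * a') * (n * (n + 2) / 4) by ring,
    show (a * b' + b * a') / 4 + (a * c' + b * b' + c * a') * ((n : ℝ) / (4 * 1)) +
      (a * c' + c * a' - b * b') / (2 * 1) =
    (a * b' + b * a') / 4 + (a * c' + b * b' + c * a') * (n / 4) +
      (a * c' + c * a' - b * b') / 2 by ring]
  ring

lemma cv_pair2 (C a b c a' b' c' A B D : ℝ) (h1 : b * c' = 0) (h2 : c * b' = 0) (h3 : c * c' = 0)
    (hA : A = a * a' + (a * b' + b * a') * n + (a * c' + b * b' + c * a') * (n * (n + 2)))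
    (hB : B = (a * b' + b * a') / 4 + (a * c' + b * b' + c * a') * (n / 2) +
      (a * c' + c * a' - b * b'))
    (hD : D = (a * c' + b * b' + c * a') / 16) :
    cvR (fun x : Fin n → ℝ => C * qp (1 / 2) a b c x) (fun x => C * qp (1 / 2) a' b' c' x) =
      fun x => C ^ 2 * M0 n (1 / 2) * qp (1 / 4) A B D x := by
  rw [cvR_smul]
  have h := cv_poly (n := n) (h := 1 / 2) (by norm_num) a b c a' b' c' h1 h2 h3
  funext x
  have h' := congrFun h x
  rw [show cvR (fun x : Fin n → ℝ => qp (1 / 2) a b c x) (fun x => qp (1 / 2) a' b' c' x) x =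
    cvR (qp (n := n) (1 / 2) a b c) (qp (1 / 2) a' b' c') x from rfl, h']
  have eA : a * a' + (a * b' + b * a') * ((n : ℝ) / (2 * (1 / 2))) +
      (a * c' + b * b' + c * a') * (n * (n + 2) / (4 * (1 / 2) ^ 2)) = A := by
    rw [hA]; ring
  have eB : (a * b' + b * a') / 4 + (a * c' + b * b' + c * a') * ((n : ℝ) / (4 * (1 / 2))) +
      (a * c' + c * a' - b * b') / (2 * (1 / 2)) = B := by
    rw [hB]; ring
  rw [eA, eB, ← hD, show (1 / 2 / 2 : ℝ) = 1 / 4 by norm_num]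
  ring

lemma sh_gen (C a0 b0 c0 a1 b1 c1 a2 b2 c2 a3 b3 c3 A B D : ℝ) (f : Fin 4 → (Fin n → ℝ) → ℝ)
    (f0 : f 0 = fun x => C * qp 1 a0 b0 c0 x) (f1 : f 1 = fun x => C * qp 1 a1 b1 c1 x)
    (f2 : f 2 = fun x => C * qp 1 a2 b2 c2 x) (f3 : f 3 = fun x => C * qp 1 a3 b3 c3 x)
    (h1 : b0 * c1 = 0) (h2 : c0 * b1 = 0) (h3 : c0 * c1 = 0)
    (h4 : b2 * c3 = 0) (h5 : c2 * b3 = 0) (h6 : c2 * c3 = 0)
    (h7 : pB n a0 b0 c0 a1 b1 c1 * pD a2 b2 c2 a3 b3 c3 = 0)
    (h8 : pD a0 b0 c0 a1 b1 c1 * pB n a2 b2 c2 a3 b3 c3 = 0)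
    (h9 : pD a0 b0 c0 a1 b1 c1 * pD a2 b2 c2 a3 b3 c3 = 0)
    (hA : A = pA n a0 b0 c0 a1 b1 c1 * pA n a2 b2 c2 a3 b3 c3 +
      (pA n a0 b0 c0 a1 b1 c1 * pB n a2 b2 c2 a3 b3 c3 +
        pB n a0 b0 c0 a1 b1 c1 * pA n a2 b2 c2 a3 b3 c3) * n +
      (pA n a0 b0 c0 a1 b1 c1 * pD a2 b2 c2 a3 b3 c3 +
        pB n a0 b0 c0 a1 b1 c1 * pB n a2 b2 c2 a3 b3 c3 +
        pD a0 b0 c0 a1 b1 c1 * pA n a2 b2 c2 a3 b3 c3) * (n * (n + 2)))
    (hB : B = (pA n a0 b0 c0 a1 b1 c1 * pB n a2 b2 c2 a3 b3 c3 +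
        pB n a0 b0 c0 a1 b1 c1 * pA n a2 b2 c2 a3 b3 c3) / 4 +
      (pA n a0 b0 c0 a1 b1 c1 * pD a2 b2 c2 a3 b3 c3 +
        pB n a0 b0 c0 a1 b1 c1 * pB n a2 b2 c2 a3 b3 c3 +
        pD a0 b0 c0 a1 b1 c1 * pA n a2 b2 c2 a3 b3 c3) * (n / 2) +
      (pA n a0 b0 c0 a1 b1 c1 * pD a2 b2 c2 a3 b3 c3 +
        pD a0 b0 c0 a1 b1 c1 * pA n a2 b2 c2 a3 b3 c3 -
        pB n a0 b0 c0 a1 b1 c1 * pB n a2 b2 c2 a3 b3 c3))
    (hD : D = (pA n a0 b0 c0 a1 b1 c1 * pD a2 b2 c2 a3 b3 c3 +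
        pB n a0 b0 c0 a1 b1 c1 * pB n a2 b2 c2 a3 b3 c3 +
        pD a0 b0 c0 a1 b1 c1 * pA n a2 b2 c2 a3 b3 c3) / 16) :
    sh f = fun x => C ^ 4 * KK n * qp (1 / 4) A B D x := by
  unfold sh
  rw [f0, f1, f2, f3, cv_pair C _ _ _ _ _ _ h1 h2 h3, cv_pair C _ _ _ _ _ _ h4 h5 h6,
    cv_pair2 _ _ _ _ _ _ _ A B D h7 h8 h9 hA hB hD]
  funext x
  unfold KK
  ring

/-- **one quadratic insertion in a sheet** -/
lemma sh_one (C a b c : ℝ) (r : Fin 4) (f : Fin 4 → (Fin n → ℝ) → ℝ)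
    (hr : f r = fun x => C * qp 1 a b c x)
    (ho : ∀ i, i ≠ r → f i = fun x => C * qp 1 1 0 0 x) :
    sh f = fun x => C ^ 4 * KK n * qp (1 / 4) (a + 3 / 4 * n * b + 9 / 16 * n * (n + 2) * c)
      (b / 16 + 3 / 32 * (n + 2) * c) (c / 256) x := by
  fin_cases r
  · refine sh_gen C a b c 1 0 0 1 0 0 1 0 0 _ _ _ f hr (ho 1 (by decide)) (ho 2 (by decide))
      (ho 3 (by decide)) ?_ ?_ ?_ ?_ ?_ ?_ ?_ ?_ ?_ ?_ ?_ ?_ <;> (try simp only [pA, pB, pD]) <;> ring
  · refine sh_gen C 1 0 0 a b c 1 0 0 1 0 0 _ _ _ f (ho 0 (by decide)) hr (ho 2 (by decide))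
      (ho 3 (by decide)) ?_ ?_ ?_ ?_ ?_ ?_ ?_ ?_ ?_ ?_ ?_ ?_ <;> (try simp only [pA, pB, pD]) <;> ring
  · refine sh_gen C 1 0 0 1 0 0 a b c 1 0 0 _ _ _ f (ho 0 (by decide)) (ho 1 (by decide)) hr
      (ho 3 (by decide)) ?_ ?_ ?_ ?_ ?_ ?_ ?_ ?_ ?_ ?_ ?_ ?_ <;> (try simp only [pA, pB, pD]) <;> ring
  · refine sh_gen C 1 0 0 1 0 0 1 0 0 a b c _ _ _ f (ho 0 (by decide)) (ho 1 (by decide))
      (ho 2 (by decide)) hr ?_ ?_ ?_ ?_ ?_ ?_ ?_ ?_ ?_ ?_ ?_ ?_ <;> (try simp only [pA, pB, pD]) <;> ring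

/-- **two affine insertions in different quarters of a sheet** -/
lemma sh_two (C a b a' b' : ℝ) (r r' : Fin 4) (hrr : r ≠ r') (f : Fin 4 → (Fin n → ℝ) → ℝ)
    (hr : f r = fun x => C * qp 1 a b 0 x) (hr' : f r' = fun x => C * qp 1 a' b' 0 x)
    (ho : ∀ i, i ≠ r → i ≠ r' → f i = fun x => C * qp 1 1 0 0 x) :
    sh f = fun x => C ^ 4 * KK n * qp (1 / 4)
      ((a + 3 / 4 * n * b) * (a' + 3 / 4 * n * b') + b * b' * n / 8)
      ((b * (a' + 3 / 4 * n * b') + b' * (a + 3 / 4 * n * b)) / 16 - b * b' / 16)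
      (b * b' / 256) x := by
  fin_cases r <;> fin_cases r' <;> first | exact absurd rfl hrr | skip
  · refine sh_gen C a b 0 a' b' 0 1 0 0 1 0 0 _ _ _ f hr hr' (ho 2 (by decide) (by decide))
      (ho 3 (by decide) (by decide)) ?_ ?_ ?_ ?_ ?_ ?_ ?_ ?_ ?_ ?_ ?_ ?_ <;>
      (try simp only [pA, pB, pD]) <;> ring
  · refine sh_gen C a b 0 1 0 0 a' b' 0 1 0 0 _ _ _ f hr (ho 1 (by decide) (by decide)) hr'
      (ho 3 (by decide) (by decide)) ?_ ?_ ?_ ?_ ?_ ?_ ?_ ?_ ?_ ?_ ?_ ?_ <;>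
      (try simp only [pA, pB, pD]) <;> ring
  · refine sh_gen C a b 0 1 0 0 1 0 0 a' b' 0 _ _ _ f hr (ho 1 (by decide) (by decide))
      (ho 2 (by decide) (by decide)) hr' ?_ ?_ ?_ ?_ ?_ ?_ ?_ ?_ ?_ ?_ ?_ ?_ <;>
      (try simp only [pA, pB, pD]) <;> ring
  · refine sh_gen C a' b' 0 a b 0 1 0 0 1 0 0 _ _ _ f hr' hr (ho 2 (by decide) (by decide))
      (ho 3 (by decide) (by decide)) ?_ ?_ ?_ ?_ ?_ ?_ ?_ ?_ ?_ ?_ ?_ ?_ <;>
      (try simp only [pA, pB, pD]) <;> ring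
  · refine sh_gen C 1 0 0 a b 0 a' b' 0 1 0 0 _ _ _ f (ho 0 (by decide) (by decide)) hr hr'
      (ho 3 (by decide) (by decide)) ?_ ?_ ?_ ?_ ?_ ?_ ?_ ?_ ?_ ?_ ?_ ?_ <;>
      (try simp only [pA, pB, pD]) <;> ring
  · refine sh_gen C 1 0 0 a b 0 1 0 0 a' b' 0 _ _ _ f (ho 0 (by decide) (by decide)) hr
      (ho 2 (by decide) (by decide)) hr' ?_ ?_ ?_ ?_ ?_ ?_ ?_ ?_ ?_ ?_ ?_ ?_ <;>
      (try simp only [pA, pB, pD]) <;> ring
  · refine sh_gen C a' b' 0 1 0 0 a b 0 1 0 0 _ _ _ f hr' (ho 1 (by decide) (by decide)) hr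
      (ho 3 (by decide) (by decide)) ?_ ?_ ?_ ?_ ?_ ?_ ?_ ?_ ?_ ?_ ?_ ?_ <;>
      (try simp only [pA, pB, pD]) <;> ring
  · refine sh_gen C 1 0 0 a' b' 0 a b 0 1 0 0 _ _ _ f (ho 0 (by decide) (by decide)) hr' hr
      (ho 3 (by decide) (by decide)) ?_ ?_ ?_ ?_ ?_ ?_ ?_ ?_ ?_ ?_ ?_ ?_ <;>
      (try simp only [pA, pB, pD]) <;> ring
  · refine sh_gen C 1 0 0 1 0 0 a b 0 a' b' 0 _ _ _ f (ho 0 (by decide) (by decide))
      (ho 1 (by decide) (by decide)) hr hr' ?_ ?_ ?_ ?_ ?_ ?_ ?_ ?_ ?_ ?_ ?_ ?_ <;>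
      (try simp only [pA, pB, pD]) <;> ring
  · refine sh_gen C a' b' 0 1 0 0 1 0 0 a b 0 _ _ _ f hr' (ho 1 (by decide) (by decide))
      (ho 2 (by decide) (by decide)) hr ?_ ?_ ?_ ?_ ?_ ?_ ?_ ?_ ?_ ?_ ?_ ?_ <;>
      (try simp only [pA, pB, pD]) <;> ring
  · refine sh_gen C 1 0 0 a' b' 0 1 0 0 a b 0 _ _ _ f (ho 0 (by decide) (by decide)) hr'
      (ho 2 (by decide) (by decide)) hr ?_ ?_ ?_ ?_ ?_ ?_ ?_ ?_ ?_ ?_ ?_ ?_ <;>
      (try simp only [pA, pB, pD]) <;> ring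
  · refine sh_gen C 1 0 0 1 0 0 a' b' 0 a b 0 _ _ _ f (ho 0 (by decide) (by decide))
      (ho 1 (by decide) (by decide)) hr' hr ?_ ?_ ?_ ?_ ?_ ?_ ?_ ?_ ?_ ?_ ?_ ?_ <;>
      (try simp only [pA, pB, pD]) <;> ring

lemma sh_zero (C : ℝ) (f : Fin 4 → (Fin n → ℝ) → ℝ) (ho : ∀ i, f i = fun x => C * qp 1 1 0 0 x) :
    sh f = fun x => C ^ 4 * KK n * qp (1 / 4) 1 0 0 x := by
  have h := sh_one C 1 0 0 0 f (ho 0) fun i _ => ho i
  rw [h]
  funext x
  congr 2
  · ring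
  · ring
  · ring

/-- the product of the sheets -/
lemma prod_one (F : Fin 4 → ℝ) (T : ℝ) (s : Fin 4) (h : ∀ i, i ≠ s → F i = T) :
    ∏ i, F i = F s * T ^ 3 := by
  rw [Fin.prod_univ_four]
  fin_cases s
  · rw [h 1 (by decide), h 2 (by decide), h 3 (by decide)]; simp only [Fin.zero_eta]; ring
  · rw [h 0 (by decide), h 2 (by decide), h 3 (by decide)]; simp only [Fin.mk_one]; ring
  · rw [h 1 (by decide), h 0 (by decide), h 3 (by decide)]; simp only [Fin.reduceFinMk]; ring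
  · rw [h 1 (by decide), h 2 (by decide), h 0 (by decide)]; simp only [Fin.reduceFinMk]; ring

lemma prod_two (F : Fin 4 → ℝ) (T : ℝ) (s s' : Fin 4) (hs : s ≠ s')
    (h : ∀ i, i ≠ s → i ≠ s' → F i = T) : ∏ i, F i = F s * F s' * T ^ 2 := by
  rw [← Finset.mul_prod_erase _ _ (Finset.mem_univ s),
    ← Finset.mul_prod_erase _ _ (Finset.mem_erase.2 ⟨hs.symm, Finset.mem_univ s'⟩)]
  rw [Finset.prod_congr rfl fun i hi => h i (Finset.mem_erase.1 (Finset.mem_erase.1 hi).2).1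
    (Finset.mem_erase.1 hi).1, Finset.prod_const]
  rw [Finset.card_erase_of_mem (Finset.mem_erase.2 ⟨hs.symm, Finset.mem_univ s'⟩),
    Finset.card_erase_of_mem (Finset.mem_univ s)]
  simp only [Finset.card_univ, Fintype.card_fin]
  ring

/-- the constants -/
def Cs (n : ℕ) : ℕ → ℝ
  | 0 => 1
  | j + 1 => (Cs n j ^ 4 * KK n) ^ 4

lemma Cs_pos : ∀ j, 0 < Cs n j
  | 0 => one_pos
  | j + 1 => pow_pos (mul_pos (pow_pos (Cs_pos j) _) KK_pos) _

/-- the variance of a plaquette given the flux -/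
def sj : ℕ → ℝ
  | 0 => 0
  | j + 1 => sj j + 3 / 4 * (1 / 16) ^ j

open Classical in
/-- the covariance of two plaquettes given the flux -/
def kap : ∀ {j : ℕ}, Pq j → Pq j → ℝ
  | 0, _, _ => 0
  | j + 1, (s, r, p), (s', r', q) =>
    if s = s' then (if r = r' then kap p q + 3 / 4 * (1 / 16) ^ j else -(1 / 4 * (1 / 16) ^ j))
    else 0

lemma ZR_succ (j : ℕ) (w : Pq (j + 1) → (Fin n → ℝ) → ℝ) (x : Fin n → ℝ) :
    ZR (j + 1) w x = ∏ s : Fin 4, sh (fun q => ZR j fun p => w (s, q, p)) x := rfl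

lemma qp_four (x : Fin n → ℝ) (D : ℝ) :
    (D * qp (1 / 4) 1 0 0 x) ^ 4 = D ^ 4 * qp 1 1 0 0 x := by
  have h1 : ga (n := n) (1 / 4 / 2) x ^ 4 = ga (1 / 2) x := by
    unfold ga
    rw [← Real.exp_nat_mul]
    congr 1
    push_cast
    ring
  unfold qp
  rw [← h1]
  ring

lemma qp_mul (x : Fin n → ℝ) (D a b c : ℝ) :
    (D * qp (1 / 4) a b c x) * (D * qp (1 / 4) 1 0 0 x) ^ 3 = D ^ 4 * qp 1 a b c x := by
  have h1 : ga (n := n) (1 / 4 / 2) x ^ 4 = ga (1 / 2) x := by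
    unfold ga
    rw [← Real.exp_nat_mul]
    congr 1
    push_cast
    ring
  unfold qp
  rw [← h1]
  ring

lemma qp_mul2 (x : Fin n → ℝ) (D a b a' b' A B c : ℝ) (hA : A = a * a') (hB : B = a * b' + b * a')
    (hc : c = b * b') :
    (D * qp (1 / 4) a b 0 x) * (D * qp (1 / 4) a' b' 0 x) * (D * qp (1 / 4) 1 0 0 x) ^ 2 =
      D ^ 4 * qp 1 A B c x := by
  have h1 : ga (n := n) (1 / 4 / 2) x ^ 4 = ga (1 / 2) x := by
    unfold ga
    rw [← Real.exp_nat_mul]
    congr 1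
    push_cast
    ring
  unfold qp
  rw [← h1, hA, hB, hc]
  ring

lemma ZR0 : ∀ j, ZR (n := n) j (fun _ x => gs x) = fun x => Cs n j * qp 1 1 0 0 x
  | 0 => by
    funext x
    show gs x = _
    rw [gs_eq]
    simp only [Cs, one_mul]
  | j + 1 => by
    funext x
    rw [ZR_succ]
    have h1 := sh_zero (n := n) (Cs n j) (fun _ => ZR (n := n) j fun _ x => gs x) fun _ => ZR0 j
    rw [show (fun s : Fin 4 => sh (fun q : Fin 4 => ZR (n := n) j fun p =>
      (fun (_ : Pq (j + 1)) (x : Fin n → ℝ) => gs x) (s, q, p)) x) =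
      fun _ => sh (fun _ => ZR (n := n) j fun _ x => gs x) x from rfl]
    rw [Finset.prod_const, Finset.card_univ, Fintype.card_fin, h1]
    exact qp_four x _

open Classical in
/-- an insertion -/
def i1 {j : ℕ} (p : Pq j) (a b : ℝ) (q : Pq j) (x : Fin n → ℝ) : ℝ :=
  if q = p then a + b * us x else 1

lemma i1_self {j : ℕ} (p q : Pq j) (h : q = p) (a b : ℝ) (x : Fin n → ℝ) :
    i1 p a b q x = a + b * us x := if_pos h

lemma i1_not {j : ℕ} (p q : Pq j) (h : q ≠ p) (a b : ℝ) (x : Fin n → ℝ) :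
    i1 p a b q x = 1 := if_neg h

lemma i1_eq {j : ℕ} (s r : Fin 4) (p q : Pq j) (a b : ℝ) (x : Fin n → ℝ) :
    i1 (j := j + 1) (s, r, p) a b (s, r, q) x = i1 p a b q x := by
  by_cases h : q = p
  · rw [i1_self _ _ h, i1_self _ _ (by rw [h])]
  · rw [i1_not _ _ h, i1_not _ _ fun h1 => h (congrArg (fun t : Fin 4 × Fin 4 × Pq j => t.2.2) h1)]

lemma i1_ne {j : ℕ} (s r s' r' : Fin 4) (h : ¬(s' = s ∧ r' = r)) (p q : Pq j) (a b : ℝ)
    (x : Fin n → ℝ) : i1 (j := j + 1) (s, r, p) a b (s', r', q) x = 1 :=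
  i1_not _ _ (fun h1 => h ⟨congrArg (fun t : Fin 4 × Fin 4 × Pq j => t.1) h1,
    congrArg (fun t : Fin 4 × Fin 4 × Pq j => t.2.1) h1⟩) _ _ _

/-- the weight with one insertion -/
def w1 {j : ℕ} (p : Pq j) (a b : ℝ) (q : Pq j) (x : Fin n → ℝ) : ℝ := gs x * i1 p a b q x

/-- the weight with two insertions -/
def w2 {j : ℕ} (p p' : Pq j) (a b a' b' : ℝ) (q : Pq j) (x : Fin n → ℝ) : ℝ :=
  gs x * (i1 p a b q x * i1 p' a' b' q x)

lemma w1_eq {j : ℕ} (s r : Fin 4) (p : Pq j) (a b : ℝ) :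
    (fun q => w1 (n := n) (j := j + 1) (s, r, p) a b (s, r, q)) = w1 p a b := by
  funext q x
  unfold w1
  rw [i1_eq]

lemma w1_ne {j : ℕ} (s r s' r' : Fin 4) (h : ¬(s' = s ∧ r' = r)) (p : Pq j) (a b : ℝ) :
    (fun q => w1 (n := n) (j := j + 1) (s, r, p) a b (s', r', q)) = fun _ x => gs x := by
  funext q x
  unfold w1
  rw [i1_ne _ _ _ _ h, mul_one]

lemma ZR1 : ∀ (j : ℕ) (p : Pq j) (a b : ℝ), ZR (n := n) j (w1 p a b) =
    fun x => Cs n j * qp 1 (a + b * n * sj j) (b * (1 / 16) ^ j) 0 x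
  | 0, p, a, b => by
    funext x
    have h1 : ZR (n := n) 0 (w1 p a b) x = gs x * (a + b * us x) :=
      congrArg (fun t => gs x * t) (i1_self p () rfl a b x)
    rw [h1, gs_eq]
    simp only [Cs, sj, one_mul, qp]
    ring
  | j + 1, (s, r, p), a, b => by
    funext x
    rw [ZR_succ]
    have e1 : sh (fun q => ZR (n := n) j fun p0 => w1 (j := j + 1) (s, r, p) a b (s, q, p0)) =
        fun x => Cs n j ^ 4 * KK n * qp (1 / 4) (a + b * n * sj (j + 1))
          (b * (1 / 16) ^ (j + 1)) 0 x := by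
      rw [sh_one (Cs n j) (a + b * n * sj j) (b * (1 / 16) ^ j) 0 r _ _ _]
      · funext x
        congr 2
        · simp only [sj]; ring
        · ring
        · ring
      ·
        rw [w1_eq, ZR1 j p a b]
      · intro i hi
        rw [w1_ne _ _ _ _ (fun h => hi h.2), ZR0]
    have e2 : ∀ i, i ≠ s → sh (fun q => ZR (n := n) j fun p0 =>
        w1 (j := j + 1) (s, r, p) a b (i, q, p0)) =
        fun x => Cs n j ^ 4 * KK n * qp (1 / 4) 1 0 0 x := by
      intro i hi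
      refine sh_zero _ _ fun q => ?_
      rw [w1_ne _ _ _ _ (fun h => hi h.1), ZR0]
    rw [prod_one (fun i => sh (fun q => ZR (n := n) j fun p0 =>
      w1 (j := j + 1) (s, r, p) a b (i, q, p0)) x) _ s fun i hi => congrFun (e2 i hi) x]
    rw [congrFun e1 x]
    exact qp_mul x _ _ _ _

lemma w2_eq {j : ℕ} (s r : Fin 4) (p p' : Pq j) (a b a' b' : ℝ) :
    (fun q => w2 (n := n) (j := j + 1) (s, r, p) (s, r, p') a b a' b' (s, r, q)) =
      w2 p p' a b a' b' := by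
  funext q x
  unfold w2
  rw [i1_eq, i1_eq]

lemma w2_left {j : ℕ} (s r s' r' : Fin 4) (h : ¬(s = s' ∧ r = r')) (p p' : Pq j)
    (a b a' b' : ℝ) :
    (fun q => w2 (n := n) (j := j + 1) (s, r, p) (s', r', p') a b a' b' (s, r, q)) =
      w1 p a b := by
  funext q x
  unfold w2 w1
  rw [i1_eq, i1_ne _ _ _ _ h, mul_one]

lemma w2_right {j : ℕ} (s r s' r' : Fin 4) (h : ¬(s = s' ∧ r = r')) (p p' : Pq j)
    (a b a' b' : ℝ) :
    (fun q => w2 (n := n) (j := j + 1) (s, r, p) (s', r', p') a b a' b' (s', r', q)) =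
      w1 p' a' b' := by
  funext q x
  unfold w2 w1
  rw [i1_eq, i1_ne _ _ _ _ fun h1 => h ⟨h1.1.symm, h1.2.symm⟩, one_mul]

lemma w2_ne {j : ℕ} (s r s' r' s0 r0 : Fin 4) (h : ¬(s0 = s ∧ r0 = r))
    (h' : ¬(s0 = s' ∧ r0 = r')) (p p' : Pq j) (a b a' b' : ℝ) :
    (fun q => w2 (n := n) (j := j + 1) (s, r, p) (s', r', p') a b a' b' (s0, r0, q)) =
      fun _ x => gs x := by
  funext q x
  unfold w2
  rw [i1_ne _ _ _ _ h, i1_ne _ _ _ _ h', one_mul, mul_one]

lemma ZR2 : ∀ (j : ℕ) (p p' : Pq j) (a b a' b' : ℝ), ZR (n := n) j (w2 p p' a b a' b') =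
    fun x => Cs n j * qp 1
      ((a + b * n * sj j) * (a' + b' * n * sj j) + b * b' * (2 * n * kap p p' ^ 2))
      ((b * (a' + b' * n * sj j) + b' * (a + b * n * sj j)) * (1 / 16) ^ j +
        b * b' * (4 * (1 / 16) ^ j * kap p p'))
      (b * b' * (1 / 16) ^ j * (1 / 16) ^ j) x
  | 0, p, p', a, b, a', b' => by
    funext x
    have h1 : ZR (n := n) 0 (w2 p p' a b a' b') x =
        gs x * ((a + b * us x) * (a' + b' * us x)) :=
      congrArg₂ (fun t u => gs x * (t * u)) (i1_self p () rfl a b x) (i1_self p' () rfl a' b' x)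
    rw [h1, gs_eq]
    simp only [Cs, sj, kap, one_mul, qp]
    ring
  | j + 1, (s, r, p), (s', r', p'), a, b, a', b' => by
    funext x
    rw [ZR_succ]
    by_cases hs : s = s'
    · subst hs
      have e2 : ∀ i, i ≠ s → sh (fun q => ZR (n := n) j fun p0 =>
          w2 (j := j + 1) (s, r, p) (s, r', p') a b a' b' (i, q, p0)) =
          fun x => Cs n j ^ 4 * KK n * qp (1 / 4) 1 0 0 x := by
        intro i hi
        refine sh_zero _ _ fun q => ?_
        rw [w2_ne _ _ _ _ _ _ (fun h => hi h.1) (fun h => hi h.1), ZR0]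
      rw [prod_one (fun i => sh (fun q => ZR (n := n) j fun p0 =>
        w2 (j := j + 1) (s, r, p) (s, r', p') a b a' b' (i, q, p0)) x) _ s
        fun i hi => congrFun (e2 i hi) x]
      by_cases hr : r = r'
      · subst hr
        have hk : kap (j := j + 1) (s, r, p) (s, r, p') = kap p p' + 3 / 4 * (1 / 16) ^ j := by
          simp only [kap, if_true]
        have e1 := sh_one (n := n) (Cs n j) _ _ _ r (fun q => ZR (n := n) j fun p0 =>
          w2 (j := j + 1) (s, r, p) (s, r, p') a b a' b' (s, q, p0))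
          (by rw [w2_eq, ZR2 j p p' a b a' b']) (by
            intro i hi
            rw [w2_ne _ _ _ _ _ _ (fun h => hi h.2) (fun h => hi h.2), ZR0])
        rw [congrFun e1 x, qp_mul, hk]
        simp only [Cs, sj]
        congr 2
        · ring
        · ring
        · ring
      · have hk : kap (j := j + 1) (s, r, p) (s, r', p') = -(1 / 4 * (1 / 16) ^ j) := by
          simp only [kap, if_true, if_neg hr]
        have hn : ¬(s = s ∧ r = r') := fun h => hr h.2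
        have e1 := sh_two (n := n) (Cs n j) _ _ _ _ r r' hr (fun q => ZR (n := n) j fun p0 =>
          w2 (j := j + 1) (s, r, p) (s, r', p') a b a' b' (s, q, p0))
          (by rw [w2_left _ _ _ _ hn, ZR1 j p a b])
          (by rw [w2_right _ _ _ _ hn, ZR1 j p' a' b']) (by
            intro i hi hi'
            rw [w2_ne _ _ _ _ _ _ (fun h => hi h.2) (fun h => hi' h.2), ZR0])
        rw [congrFun e1 x, qp_mul, hk]
        simp only [Cs, sj]
        congr 2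
        · ring
        · ring
        · ring
    · have hk : kap (j := j + 1) (s, r, p) (s', r', p') = 0 := by
        simp only [kap, if_neg hs]
      have hn : ¬(s = s' ∧ r = r') := fun h => hs h.1
      have e2 : ∀ i, i ≠ s → i ≠ s' → sh (fun q => ZR (n := n) j fun p0 =>
          w2 (j := j + 1) (s, r, p) (s', r', p') a b a' b' (i, q, p0)) =
          fun x => Cs n j ^ 4 * KK n * qp (1 / 4) 1 0 0 x := by
        intro i hi hi'
        refine sh_zero _ _ fun q => ?_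
        rw [w2_ne _ _ _ _ _ _ (fun h => hi h.1) (fun h => hi' h.1), ZR0]
      have e1 := sh_one (n := n) (Cs n j) _ _ _ r (fun q => ZR (n := n) j fun p0 =>
        w2 (j := j + 1) (s, r, p) (s', r', p') a b a' b' (s, q, p0))
        (by rw [w2_left _ _ _ _ hn, ZR1 j p a b]) (by
          intro i hi
          rw [w2_ne _ _ _ _ _ _ (fun h => hi h.2) (fun h => hs h.1), ZR0])
      have e3 := sh_one (n := n) (Cs n j) _ _ _ r' (fun q => ZR (n := n) j fun p0 =>
        w2 (j := j + 1) (s, r, p) (s', r', p') a b a' b' (s', q, p0))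
        (by rw [w2_right _ _ _ _ hn, ZR1 j p' a' b']) (by
          intro i hi
          rw [w2_ne _ _ _ _ _ _ (fun h => hs h.1.symm) (fun h => hi h.2), ZR0])
      rw [prod_two (fun i => sh (fun q => ZR (n := n) j fun p0 =>
        w2 (j := j + 1) (s, r, p) (s', r', p') a b a' b' (i, q, p0)) x) _ s s' hs
        fun i hi hi' => congrFun (e2 i hi hi') x]
      rw [congrFun e1 x, congrFun e3 x, hk]
      have z1 : (0 : ℝ) / 256 = 0 := zero_div _
      rw [z1]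
      simp only [Cs, sj]
      refine qp_mul2 x _ _ _ _ _ _ _ _ ?_ ?_ ?_
      · ring
      · ring
      · ring

lemma int_qp (D a b c : ℝ) : ∫ x : Fin n → ℝ, D * qp 1 a b c x =
    D * ((a + b * n + c * (n * (n + 2))) * M0 n (1 / 2)) := by
  rw [integral_const_mul]
  congr 1
  have h := mom_poly (n := n) (h := 1 / 2) (by norm_num) 0 a b c 0 0 0
  have e : (fun x : Fin n → ℝ => qp 1 a b c x) = fun x =>
      (a + b * us x + c * us x ^ 2 + 0 * sc 0 x + 0 * (sc 0 x * us x) + 0 * sc 0 x ^ 2) *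
        ga (1 / 2) x := by
    funext x
    unfold qp
    ring
  rw [e, h]
  congr 1
  ring

lemma ER_one {j : ℕ} (p : Pq j) : ER (n := n) (fun _ : Fin 1 => p) (fun _ x => fr x) =
    -(n / 2 * (sj j + (1 / 16) ^ j)) := by
  have e1 : (fun (q : Pq j) (x : Fin n → ℝ) => gs x *
      insR (fun _ : Fin 1 => p) (fun _ x => fr x) q x) = w1 p 0 (-1 / 2) := by
    funext q x
    unfold w1 insR i1 fr us
    rw [Fin.prod_univ_one]
    split_ifs
    · ring
    · rfl
  unfold ER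
  rw [e1, ZR1, ZR0, int_qp, int_qp]
  have h1 := (Cs_pos (n := n) j).ne'
  have h2 := (M0_pos (n := n) (h := 1 / 2) (by norm_num)).ne'
  field_simp
  ring

/-- **the two-point function of the free theory** -/
theorem CR_two {j : ℕ} (p : Fin 2 → Pq j) :
    CR n p = n / 2 * ((1 / 16) ^ j + kap (p 0) (p 1)) ^ 2 := by
  have e1 : (fun (q : Pq j) (x : Fin n → ℝ) => gs x * insR p
      (fun a (x : Fin n → ℝ) => fr x - ER (fun _ : Fin 1 => p a) fun _ (x : Fin n → ℝ) => fr x)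
        q x) = w2 (p 0) (p 1) (n / 2 * (sj j + (1 / 16) ^ j)) (-1 / 2)
          (n / 2 * (sj j + (1 / 16) ^ j)) (-1 / 2) := by
    funext q x
    unfold w2 insR i1
    rw [Fin.prod_univ_two]
    beta_reduce
    rw [ER_one, ER_one]
    unfold fr us
    congr 2
    · split_ifs
      · ring
      · rfl
    · split_ifs
      · ring
      · rfl
  unfold CR ER
  unfold ER at e1
  rw [e1, ZR2, ZR0, int_qp, int_qp]
  have h1 := (Cs_pos (n := n) j).ne'
  have h2 := (M0_pos (n := n) (h := 1 / 2) (by norm_num)).ne'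
  field_simp
  ring

end

end Pool.Agent.N985.T3
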