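import Mathlib
import Pool.Agent.N985.T3.FreeTwo
import Pool.Agent.N109.T3.Defs

/-!
# The two-point function of the field of the free theory, explicitly
-/

open Pool.Agent.N989.MK Pool.Agent.N109.T3

namespace Pool.Agent.N985.T3

noncomputable section

lemma kap_diag : ∀ {j : ℕ} (p : Pq j), (1 / 16 : ℝ) ^ j + kap p p = (4 + (1 / 16) ^ j) / 5
  | 0, p => by simp only [kap]; norm_num
  | j + 1, (s, r, p) => by
    have h := kap_diag p
    have h1 : kap (j := j + 1) (s, r, p) (s, r, p) = kap p p + 3 / 4 * (1 / 16) ^ j := by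
      simp only [kap, if_true]
    rw [h1, pow_succ]
    linarith

lemma anc_le' : ∀ (j : ℕ) (p q : Pq j), anc j p q ≤ j
  | 0, _, _ => le_rfl
  | j + 1, (s, r, p), (s', r', q) => by
    by_cases h : s = s' ∧ r = r'
    · have h3 : anc (j + 1) (s, r, p) (s', r', q) = anc j p q := if_pos h
      rw [h3]
      exact (anc_le' j p q).trans (Nat.le_succ j)
    · have h3 : anc (j + 1) (s, r, p) (s', r', q) = j + 1 := if_neg h
      rw [h3]

open Classical in
lemma kap_off : ∀ {j : ℕ} (p q : Pq j), p ≠ q → (1 / 16 : ℝ) ^ j + kap p q =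
    (1 / 16) ^ anc j p q * ((4 + (1 / 16) ^ (j - anc j p q)) / 5 - if Sep p q then 0 else 4)
  | 0, p, q, h => absurd rfl h
  | j + 1, (s, r, p), (s', r', q), h => by
    by_cases hs : s = s'
    · subst hs
      by_cases hr : r = r'
      · subst hr
        have h0 : p ≠ q := fun h1 => h (by rw [h1])
        have h2 := kap_off p q h0
        have h1 : kap (j := j + 1) (s, r, p) (s, r, q) = kap p q + 3 / 4 * (1 / 16) ^ j := by
          simp only [kap, if_true]
        have h3 : anc (j + 1) (s, r, p) (s, r, q) = anc j p q := if_pos ⟨rfl, rfl⟩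
        have h4 : N109.T3.Sep (n := j + 1) (s, r, p) (s, r, q) ↔ N109.T3.Sep p q :=
          ⟨fun h1 => h1.elim (fun h2 => absurd rfl h2) fun h2 => h2.2, fun h1 => Or.inr ⟨rfl, h1⟩⟩
        have h5 : anc j p q ≤ j := anc_le' j p q
        have h6 : (1 / 16 : ℝ) ^ anc j p q * (1 / 16) ^ (j - anc j p q) = (1 / 16) ^ j := by
          rw [← pow_add, Nat.add_sub_cancel' h5]
        have h7 : (1 / 16 : ℝ) ^ anc j p q * (1 / 16) ^ (j + 1 - anc j p q) =
            (1 / 16) ^ (j + 1) := by
          rw [← pow_add, Nat.add_sub_cancel' (by omega)]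
        have h8 : (if Sep (n := j + 1) (s, r, p) (s, r, q) then (0 : ℝ) else 4) =
            if Sep p q then 0 else 4 := if_congr h4 rfl rfl
        rw [h1, h3, h8]
        generalize (if Sep p q then (0 : ℝ) else 4) = t at h2 ⊢
        have h9 : (1 / 16 : ℝ) ^ (j + 1) = 1 / 16 * (1 / 16) ^ j := by rw [pow_succ]; ring
        rw [h9] at h7 ⊢
        linear_combination h2 + (h6 - h7) / 5
      · have h1 : kap (j := j + 1) (s, r, p) (s, r', q) = -(1 / 4 * (1 / 16) ^ j) := by
          simp only [kap, if_true, if_neg hr]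
        have h3 : anc (j + 1) (s, r, p) (s, r', q) = j + 1 := if_neg fun h => hr h.2
        have h4 : ¬N109.T3.Sep (n := j + 1) (s, r, p) (s, r', q) :=
          fun h1 => h1.elim (fun h2 => h2 rfl) fun h2 => hr h2.1
        rw [h1, h3, if_neg h4, Nat.sub_self, pow_zero, pow_succ]
        ring
    · have h1 : kap (j := j + 1) (s, r, p) (s', r', q) = 0 := by
        simp only [kap, if_neg hs]
      have h3 : anc (j + 1) (s, r, p) (s', r', q) = j + 1 := if_neg fun h => hs h.1
      have h4 : Sep (n := j + 1) (s, r, p) (s', r', q) := Or.inl hs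
      rw [h1, h3, if_pos h4, Nat.sub_self, pow_zero, pow_succ]
      ring

open Classical in
/-- **The two-point function of the square of the curvature in the free theory.** -/
theorem CR_pair (n : ℕ) {j : ℕ} (p : Fin 2 → Pq j) (h : p 0 ≠ p 1) :
    CR n p = n / 2 * (((4 + (1 / 16 : ℝ) ^ (j - anc j (p 0) (p 1))) / 5 -
      if Sep (p 0) (p 1) then 0 else 4) / 16 ^ anc j (p 0) (p 1)) ^ 2 := by
  rw [CR_two, kap_off _ _ h]
  congr 2
  rw [one_div, inv_pow, mul_comm, ← div_eq_mul_inv]

/-- **The variance of the square of the curvature in the free theory.** -/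
theorem CR_diag (n : ℕ) {j : ℕ} (p : Pq j) :
    CR n (fun _ : Fin 2 => p) = n / 2 * ((4 + (1 / 16 : ℝ) ^ j) / 5) ^ 2 := by
  rw [CR_two, kap_diag]

end

end Pool.Agent.N985.T3
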