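import Mathlib
import Pool.Agent.N681.MK.Tan5

/-!
# The data of the renormalised operator with the sharp coupling
-/

open MeasureTheory Pool.Agent.N991.MK Pool.Agent.N989.MK Pool.Agent.N681.MK Filter
open scoped Topology

namespace Pool.Agent.N985.T3

set_option linter.unusedSectionVars false

noncomputable section

/-- **the coupling at the distance `m` from the end of a trajectory** -/
lemma tr_log {c C H R : ℝ} {h ρ : ℕ → ℝ} {J : ℕ} (hc : 0 < c) (hC : 0 ≤ C) (hR0 : 0 ≤ R)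
    (hH : 0 < H) (hCH : C ≤ H) (hcH : 2 * (C + 4 / 3 * C ^ 2) ≤ c * H)
    (hbH : 4 / 3 * C * (R + 2) + c ≤ H) (t : TR c C H h ρ J) (h0 : 0 ≤ ρ 0) (hR : ρ 0 ≤ R)
    (hJ0 : 0 ≤ h J) {j m : ℕ} (hj : j + m = J) :
    |h j - c * m| ≤ h J + (4 / 3 * C * (R + 2) +
      (C + 4 / 3 * C ^ 2) * (8 / c) * Real.log (m + 1)) := by
  obtain ⟨b, hb⟩ : ∃ b, b = 4 / 3 * C * (R + 2) := ⟨_, rfl⟩
  have hb0 : 0 ≤ b := by rw [hb]; positivity
  obtain ⟨Q, hQ⟩ : ∃ Q, Q = C + 4 / 3 * C ^ 2 := ⟨_, rfl⟩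
  have hQ0 : 0 ≤ Q := by rw [hQ]; positivity
  have hcr := t.crude hH hC hCH hcH h0 hR
  rw [← hb] at hbH
  have hlow : ∀ j m, j + (m + 1) = J → c / 8 * (m + 2) ≤ h j := by
    intro j m hj
    have h1 := hcr j (m + 1) hj.le
    rw [hj] at h1
    have h2 := t.big j (by omega)
    rw [← hb] at h1
    push_cast at h1
    have h3 : (0 : ℝ) ≤ m := Nat.cast_nonneg m
    have h4 : b + c ≤ h j := by linarith
    nlinarith
  have h1 := t.tele' hH hC hCH h0 hR j m hj.le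
  have h2 : ∑ i ∈ Finset.range m, 1 / h (j + i) ≤ 8 / c * Real.log (m + 1) := by
    have h3 : ∀ i ∈ Finset.range m, 1 / h (j + (m - 1 - i)) ≤ 8 / c * (1 / ((i : ℝ) + 2)) := by
      intro i hi
      have hi' := Finset.mem_range.1 hi
      have h4 := hlow (j + (m - 1 - i)) i (by omega)
      have h5 : (0 : ℝ) < c / 8 * (i + 2) := by positivity
      have h6 := one_div_le_one_div_of_le h5 h4
      refine h6.trans (le_of_eq ?_)
      field_simp
    rw [← Finset.sum_range_reflect]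
    refine (Finset.sum_le_sum h3).trans ?_
    rw [← Finset.mul_sum]
    exact mul_le_mul_of_nonneg_left (sum_recip m) (by positivity)
  rw [hj, ← hb, ← hQ] at h1
  rw [← hb, ← hQ]
  have h3 : |h j - c * m| ≤ |h J| + |h J - h j + c * m| := by
    have : h j - c * m = h J - (h J - h j + c * m) := by ring
    rw [this]
    exact abs_sub _ _
  rw [abs_of_nonneg hJ0] at h3
  have h4 := mul_le_mul_of_nonneg_left h2 hQ0
  have e4 : Q * (8 / c * Real.log (m + 1)) = Q * (8 / c) * Real.log (m + 1) := by ring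
  rw [e4] at h4
  linarith

variable {G : Type*} [Group G] [TopologicalSpace G] [IsTopologicalGroup G] [CompactSpace G]
  [MeasurableSpace G] [BorelSpace G] [SecondCountableTopology G]
  {μ : Measure G} [IsProbabilityMeasure μ] [μ.IsHaarMeasure] [μ.IsMulRightInvariant]
  [μ.IsInvInvariant]

variable {P : (G → ℝ) → ℝ → ℝ → Prop} {c C R : ℝ}
variable {T : (G → ℝ) → (G → ℝ) → ℝ → ℝ → ℝ → Prop} {o : G → ℝ} {κ h1 C' : ℝ} {Dm : ℕ}

/-- **the data of the renormalised operator at the scale `l i - k`, with the coupling up to a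
logarithm** -/
theorem TanFlow.data' (TF : TanFlow μ P T o κ h1 C' Dm) (hc : 0 < c) (hC : 0 ≤ C) (hR : 0 ≤ R)
    {f : ℕ → G → ℝ} {l : ℕ → ℕ} (hl : Tendsto l atTop atTop)
    (hex : ∀ hq : ℝ, ∃ k0 : ℕ, ∀ k : ℕ, k0 ≤ k → ∃ Hu : ℝ, ∀ᶠ i in atTop, ∃ h ρ,
      TP μ P c C hq R (f i) (l i - k) h ρ ∧ h (l i - k) ≤ Hu) :
    ∃ (k1 : ℕ) (B : ℝ), 0 ≤ B ∧ ∀ k : ℕ, k1 ≤ k → ∀ᶠ i in atTop, ∃ h ρ a e : ℝ,
      P (TTn μ (f i) (l i - k)) h ρ ∧ 0 ≤ ρ ∧
      T (TTn μ (f i) (l i - k)) (dTn μ (f i) (fun x => o x * f i x) (l i - k)) h a e ∧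
      |a - κ| ≤ B / k ∧ e ≤ B / k ∧ 1 ≤ h ∧ h1 ≤ h ∧ |h - c * k| ≤ B + c / 2 * k ∧
      ρ ≤ B / k ∧ |h - c * k| ≤ B * (1 + Real.log k) := by
  obtain ⟨H0, B, b1, b2, b3, b4, b5, b6⟩ := tan_flow (R := R) TF hc hC hR
  set B1 := 4 / 3 * C * (R + 2) with hB1
  have hB10 : 0 ≤ B1 := by positivity
  set hq := max (max H0 (C + C * (R + 3))) (max (2 * (C + 4 / 3 * C ^ 2) / c) (B1 + c)) with hhq
  have q1 : H0 ≤ hq := (le_max_left _ _).trans (le_max_left _ _)
  have q2 : C + C * (R + 3) ≤ hq := (le_max_right _ _).trans (le_max_left _ _)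
  have q3 : 2 * (C + 4 / 3 * C ^ 2) / c ≤ hq := (le_max_left _ _).trans (le_max_right _ _)
  have q4' : B1 + c ≤ hq := (le_max_right _ _).trans (le_max_right _ _)
  have q4 : B1 ≤ hq := by linarith
  have hq1 : 1 ≤ hq := b1.trans q1
  have hq0 : 0 < hq := by linarith
  have hCR : 0 ≤ C * (R + 3) := by positivity
  obtain ⟨k0, hk0⟩ := hex hq
  obtain ⟨Hu, hHu⟩ := hk0 k0 le_rfl
  have hC' := TF.C_nn
  set N := |κ| + C' with hN
  have hN0 : 0 ≤ N := by positivity
  have hcH : 2 * (C + 4 / 3 * C ^ 2) ≤ c * hq := by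
    rw [div_le_iff₀ hc] at q3
    linarith
  obtain ⟨Q, hQ⟩ : ∃ Q, Q = (C + 4 / 3 * C ^ 2) * (8 / c) := ⟨_, rfl⟩
  have hQ0 : 0 ≤ Q := by rw [hQ]; positivity
  set B2 : ℝ := 1 + 2 * B1 + |Hu| + hq + 2 * c * k0 + 4 * (B * N + 4 * C) / c with hB2
  have hk0' : (0 : ℝ) ≤ k0 := Nat.cast_nonneg k0
  have hB20 : 0 ≤ B2 := by positivity
  refine ⟨2 * k0 + 1 + ⌈4 * B1 / c⌉₊, B2 + 1 + Q, by positivity, fun k hk => ?_⟩
  have hkp : (1 : ℝ) ≤ k := by exact_mod_cast (by omega : 1 ≤ k)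
  have hkk : (2 : ℝ) * k0 ≤ k := by exact_mod_cast (by omega : 2 * k0 ≤ k)
  have hkB : 4 * B1 / c ≤ k := by
    refine (Nat.le_ceil _).trans ?_
    exact_mod_cast (by omega : ⌈4 * B1 / c⌉₊ ≤ k)
  rw [div_le_iff₀ hc] at hkB
  have hpow : Tendsto (fun i => (1 / 4 : ℝ) ^ (l i - k) * (C' + R)) atTop (𝓝 (0 * (C' + R))) := by
    refine Tendsto.mul_const _ ?_
    refine (tendsto_pow_atTop_nhds_zero_of_lt_one (by norm_num) (by norm_num)).comp ?_
    refine tendsto_atTop.2 fun b => ?_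
    filter_upwards [hl.eventually (eventually_ge_atTop (b + k))] with i hi
    omega
  rw [zero_mul] at hpow
  have hk0p : (0 : ℝ) < k := by linarith
  filter_upwards [hHu, hl.eventually (eventually_ge_atTop k),
    hpow.eventually (gt_mem_nhds (show (0 : ℝ) < 1 / k by positivity))] with i g1 g2 g3
  obtain ⟨h, ρ, tp, hh⟩ := g1
  set J := l i - k0 with hJ
  set s := l i - k with hs
  have hsJ : s + (k - k0) = J := by omega
  have i0 : T (f i) (fun x => o x * f i x) (h 0) κ C' :=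
    TF.init _ _ _ (tp.p 0 (by omega)) ((b5.trans q1).trans (tp.lo 0 (by omega)))
  obtain ⟨a, e, t1, t2, t3, t4⟩ := b6 hq _ _ J h ρ κ C' q1 tp i0 s (by omega)
  have hlo := tp.lo s (by omega)
  have hs0 : 0 < h s := by linarith
  -- the coupling
  have k1 := tp.t.tele2 hq0 hC (by linarith) tp.r0 tp.r s (k - k0) hsJ.le
  rw [hsJ] at k1
  have hcast : ((k - k0 : ℕ) : ℝ) = (k : ℝ) - k0 := by
    rw [Nat.cast_sub (by omega)]
  rw [hcast] at k1
  have k2 : (C + 4 / 3 * C ^ 2) / hq ≤ c / 2 := by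
    rw [div_le_iff₀ hq0]
    linarith
  have hkk0 : 0 ≤ (k : ℝ) - k0 := by linarith
  have k3 : (C + 4 / 3 * C ^ 2) / hq * ((k : ℝ) - k0) ≤ c / 2 * ((k : ℝ) - k0) :=
    mul_le_mul_of_nonneg_right k2 hkk0
  have k4 := abs_le.1 k1
  have hJlo := tp.lo J le_rfl
  have hHu1 := le_abs_self Hu
  have k5 : c / 4 * k ≤ h s := by
    have e1 : c / 2 * ((k : ℝ) - k0) ≤ h s - hq + B1 := by linarith [k4.2]
    have e2 : c / 2 * ((k : ℝ) / 2) ≤ c / 2 * ((k : ℝ) - k0) :=
      mul_le_mul_of_nonneg_left (by linarith) (by positivity)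
    linarith
  have k6 : |h s - c * k| ≤ B2 + 1 + c / 2 * k := by
    have e1 : 0 ≤ 4 * (B * N + 4 * C) / c := by positivity
    have e2 : 0 ≤ c * (k0 : ℝ) := by positivity
    rw [abs_le]
    constructor
    · have := k4.2
      linarith
    · have := k4.1
      linarith
  have k7 : ∀ y : ℝ, 0 ≤ y → y ≤ B * N + 4 * C → y / h s ≤ B2 / k := by
    intro y hy hyB
    rw [div_le_div_iff₀ hs0 hk0p]
    have e1 : 4 * (B * N + 4 * C) / c * (c / 4 * k) = (B * N + 4 * C) * k := by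
      field_simp
    have e2 : 4 * (B * N + 4 * C) / c ≤ B2 := by
      rw [hB2]
      have := abs_nonneg Hu
      have : 0 ≤ 2 * c * (k0 : ℝ) := by positivity
      linarith
    have e3 : (B * N + 4 * C) * k ≤ 4 * (B * N + 4 * C) / c * h s := by
      rw [← e1]
      exact mul_le_mul_of_nonneg_left k5 (by positivity)
    have e4 : 4 * (B * N + 4 * C) / c * h s ≤ B2 * h s := mul_le_mul_of_nonneg_right e2 hs0.le
    have e5 : y * k ≤ (B * N + 4 * C) * k := mul_le_mul_of_nonneg_right hyB hk0p.le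
    linarith
  have hBN0 : 0 ≤ B * N := by positivity
  have k8 := k7 (B * N) hBN0 (by linarith)
  have k9 := k7 (4 * C) (by positivity) (by linarith)
  have e10 : (B2 + 1 + Q) / (k : ℝ) = B2 / k + 1 / k + Q / k := by ring
  have hQk : 0 ≤ Q / (k : ℝ) := by positivity
  have hp4 : (0 : ℝ) ≤ (1 / 4) ^ s := by positivity
  have g4 : (1 / 4 : ℝ) ^ s * C' ≤ (1 / 4 : ℝ) ^ s * (C' + R) :=
    mul_le_mul_of_nonneg_left (by linarith) hp4
  have g5 : (1 / 4 : ℝ) ^ s * R ≤ (1 / 4 : ℝ) ^ s * (C' + R) :=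
    mul_le_mul_of_nonneg_left (by linarith) hp4
  have hra := tp.t.ra2 hc.le hC hq0 (by linarith) (by linarith) hq1 tp.r0 tp.r
    (by linarith [tp.lo J le_rfl] : 0 < h J) s (by omega)
  have h1k : (0 : ℝ) ≤ 1 / k := by positivity
  -- the logarithm
  have hlog : |h s - c * k| ≤ (B2 + 1 + Q) * (1 + Real.log k) := by
    have w1 := tr_log hc hC hR hq0 (by linarith) hcH q4' tp.t tp.r0 tp.r (by linarith) hsJ
    rw [hcast, ← hB1, ← hQ] at w1
    have hlk : 0 ≤ Real.log k := Real.log_nonneg hkp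
    have w2 : Real.log ((k : ℝ) - k0 + 1) ≤ 1 + Real.log k := by
      have w3 : Real.log ((k : ℝ) - k0 + 1) ≤ Real.log (2 * k) :=
        Real.log_le_log (by linarith) (by linarith)
      rw [Real.log_mul (by norm_num) (by positivity)] at w3
      have w4 : Real.log 2 ≤ 1 := by
        have := Real.log_two_lt_d9
        linarith
      linarith
    have w3 := mul_le_mul_of_nonneg_left w2 hQ0
    have w4 : |h s - c * k| ≤ |h s - c * ((k : ℝ) - k0)| + c * k0 := by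
      have e : h s - c * k = (h s - c * ((k : ℝ) - k0)) - c * k0 := by ring
      rw [e]
      refine (abs_sub _ _).trans ?_
      rw [abs_of_nonneg (by positivity : 0 ≤ c * (k0 : ℝ))]
    have w5 : h J + B1 + c * k0 ≤ B2 := by
      rw [hB2]
      have : 0 ≤ 4 * (B * N + 4 * C) / c := by positivity
      have : 0 ≤ c * (k0 : ℝ) := by positivity
      linarith
    have w6 : B2 + 1 ≤ (B2 + 1) * (1 + Real.log k) := by
      have := mul_nonneg (show 0 ≤ B2 + 1 by linarith) hlk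
      linarith
    have e : (B2 + 1 + Q) * (1 + Real.log k) =
        (B2 + 1) * (1 + Real.log k) + Q * (1 + Real.log k) := by ring
    rw [e]
    linarith
  refine ⟨h s, ρ s, a, e, tp.p s (by omega), tp.t.nonneg tp.r0 s (by omega), t1, ?_, ?_,
    hq1.trans hlo, (b5.trans q1).trans hlo, k6.trans (by linarith), ?_, hlog⟩
  · rw [e10]
    exact (t2.trans k8).trans (by linarith)
  · rw [e10]
    have : B * (|κ| + C') / h s = B * N / h s := rfl
    linarith
  · rw [e10]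
    linarith

end

end Pool.Agent.N985.T3
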